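import Mathlib

/-! Real estimates for the asymptotics of the numerical index of the complex plane. -/

namespace Pool.Agent.P.MP_c5b4b2_an.H

open Real Set Filter Topology

lemma tau_tendsto {A : ℝ} (hA : 0 < A) (B : ℝ) :
    Tendsto (fun p : ℝ => (A * p + B) ^ (-p⁻¹)) atTop (𝓝 1) := by
  have h := (tendsto_rpow_div_mul_add (-1) A⁻¹ (-(B / A)) (inv_pos.2 hA).ne).comp
    (tendsto_atTop_add_const_right _ B (tendsto_id.const_mul_atTop hA))
  refine h.congr fun p => ?_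
  simp only [Function.comp, id]
  congr 1
  have : A⁻¹ * (A * p + B) + -(B / A) = p := by field_simp; ring
  rw [this, neg_div, one_div]

lemma tau_pow {p l : ℝ} (hp : 0 < p) (hl : 0 < l) : (l ^ (-p⁻¹)) ^ p = l⁻¹ := by
  rw [← rpow_mul hl.le, neg_mul, inv_mul_cancel₀ hp.ne', rpow_neg_one]

lemma one_add_rpow_le {p x : ℝ} (hp : 0 < p) (hx : 0 ≤ 1 + x) : (1 + x) ^ p ≤ exp (p * x) := by
  rw [mul_comm, exp_mul]
  exact rpow_le_rpow hx (by linarith [add_one_le_exp x]) hp.le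

/-- The estimate from below, for normalised entries. -/
lemma low_core {κ : ℝ} (hκ : 0 < κ) (hκ1 : κ ≤ 1) : ∀ᶠ p : ℝ in atTop, ∀ θ γ δ w N t : ℝ,
    t = (2 * p) ^ (-p⁻¹) → 0 ≤ θ → θ ≤ 1 → 0 ≤ γ → 0 ≤ δ → γ + δ ≤ 1 →
    θ + (1 - θ) * t - (2 * p)⁻¹ / t ≤ w * (1 + (2 * p)⁻¹) →
    δ + γ * t - (2 * p)⁻¹ / t ≤ w * (1 + (2 * p)⁻¹) →
    (N ≤ 1 + θ ∨ N ≤ 1 + (γ + δ) ^ (p - 1) * δ) → N ≤ (1 + κ) ^ 2 * (2 * exp 1 * p) * w ^ p := by
  have T : Tendsto (fun p : ℝ => (2 * p) ^ (-p⁻¹)) atTop (𝓝 1) := by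
    simpa using tau_tendsto two_pos 0
  have Tη : Tendsto (fun p : ℝ => (2 * ((2 * p) ^ (-p⁻¹)) ^ 2)⁻¹) atTop (𝓝 (1 / 2)) := by
    simpa using ((T.pow 2).const_mul 2).inv₀ (by norm_num)
  have Tμ : Tendsto (fun p : ℝ => exp (1 / 2 - (2 * ((2 * p) ^ (-p⁻¹)) ^ 2)⁻¹ /
      (1 - (2 * ((2 * p) ^ (-p⁻¹)) ^ 2)⁻¹ * p⁻¹))) atTop (𝓝 1) := by
    have := (continuous_exp.tendsto _).comp (((Tη.div
      ((Tη.mul tendsto_inv_atTop_zero).const_sub 1) (by norm_num))).const_sub (1 / 2))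
    simpa [Function.comp_def] using this
  have TL : Tendsto (fun p : ℝ => log (2 * p)) atTop atTop :=
    tendsto_log_atTop.comp (tendsto_id.const_mul_atTop two_pos)
  have k1 : (1 + κ)⁻¹ < 1 := inv_lt_one_of_one_lt₀ (by linarith)
  filter_upwards [eventually_ge_atTop 2, Tη.eventually (gt_mem_nhds (by norm_num : (1 / 2 : ℝ) < 1)),
    Tμ.eventually (lt_mem_nhds k1), TL.eventually_ge_atTop 1,
    TL.eventually_ge_atTop ((2 - 2 * log κ) / κ)] with p hp hη hμ hL hL2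
  intro θ γ δ w N t ht θ0 θ1 γ0 δ0 hr H1 H2 H3
  rw [← ht] at hη hμ
  have p0 : 0 < p := by linarith
  have t0 : 0 < t := by rw [ht]; positivity
  have tp : t ^ p = (2 * p)⁻¹ := by rw [ht, tau_pow p0 (by positivity)]
  obtain ⟨c, hc⟩ : ∃ c, c = (2 * t ^ 2)⁻¹ := ⟨_, rfl⟩
  rw [← hc] at hη hμ
  have c0 : 0 < c := by rw [hc]; positivity
  have ip : p⁻¹ ≤ 1 / 2 := by rw [one_div]; exact inv_anti₀ two_pos hp
  have ip0 : 0 < p⁻¹ := inv_pos.2 p0
  have η1 : 0 < 1 - c * p⁻¹ := by nlinarith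
  obtain ⟨σ, hσ⟩ : ∃ σ, σ = t⁻¹ - 1 := ⟨_, rfl⟩
  have σL : log (2 * p) * p⁻¹ ≤ σ := by
    have : t⁻¹ = exp (log (2 * p) * p⁻¹) := by
      rw [ht, rpow_neg (by positivity), inv_inv, rpow_def_of_pos (by positivity)]
    linarith [add_one_le_exp (log (2 * p) * p⁻¹)]
  have σ0 : 0 ≤ σ := le_trans (by positivity) σL
  have e1 : (2 * p)⁻¹ / t = t * (c * p⁻¹) := by rw [hc]; field_simp
  have e2 : t * σ = 1 - t := by rw [hσ]; field_simp
  have key : ∀ y : ℝ, 0 ≤ y → t * y ≤ w * (1 + (2 * p)⁻¹) →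
      exp (1 / 2) * y ^ p ≤ 2 * exp 1 * p * w ^ p := by
    intro y y0 h
    have u0 : 0 < 1 + (2 * p)⁻¹ := by positivity
    have w0 : 0 ≤ w := nonneg_of_mul_nonneg_left ((mul_nonneg t0.le y0).trans h) u0
    have h2 := rpow_le_rpow (mul_nonneg t0.le y0) h p0.le
    rw [mul_rpow t0.le y0, mul_rpow w0 u0.le, tp] at h2
    have h3 := one_add_rpow_le p0 u0.le
    rw [show p * (2 * p)⁻¹ = 1 / 2 by field_simp] at h3
    have h4 := h2.trans (mul_le_mul_of_nonneg_left h3 (rpow_nonneg w0 p))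
    rw [inv_mul_le_iff₀ (by positivity)] at h4
    have h5 : exp 1 = exp (1 / 2) * exp (1 / 2) := by rw [← exp_add]; norm_num
    rw [h5]
    nlinarith [exp_pos (1 / 2)]
  have hμ2 : (1 + κ)⁻¹ ≤ exp (1 / 2) * (1 - c * p⁻¹) ^ p := by
    refine hμ.le.trans ?_
    rw [rpow_def_of_pos η1, ← exp_add, exp_le_exp]
    have := mul_le_mul_of_nonneg_right (one_sub_inv_le_log_of_pos η1) p0.le
    have e : (1 - (1 - c * p⁻¹)⁻¹) * p = -(c / (1 - c * p⁻¹)) := by
      rw [div_eq_mul_inv]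
      linear_combination (-p) * mul_inv_cancel₀ η1.ne' - (c * (1 - c * p⁻¹)⁻¹) * mul_inv_cancel₀ p0.ne'
    linarith
  have A : 1 + θ ≤ (1 + κ) * (2 * exp 1 * p * w ^ p) := by
    have y1 : 0 ≤ θ * σ := mul_nonneg θ0 σ0
    have h := key ((1 + θ * σ) * (1 - c * p⁻¹)) (by positivity) (by
      refine le_trans ?_ H1
      rw [e1]
      nlinarith [mul_nonneg (mul_nonneg t0.le y1) (mul_pos c0 ip0).le])
    rw [mul_rpow (by positivity) η1.le] at h
    have b := one_add_mul_self_le_rpow_one_add (s := θ * σ) (by linarith) (p := p) (by linarith)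
    have b2 : θ ≤ p * (θ * σ) := by
      have : 1 ≤ p * σ := by
        have := mul_le_mul_of_nonneg_left σL p0.le
        rw [mul_comm (log _), mul_inv_cancel_left₀ p0.ne'] at this
        linarith
      nlinarith
    rw [← inv_mul_le_iff₀ (by positivity)]
    refine le_trans ?_ h
    rw [mul_left_comm, mul_comm]
    exact mul_le_mul (by linarith) hμ2 (by positivity) (by positivity)
  have X0 : 0 ≤ 2 * exp 1 * p * w ^ p := by nlinarith
  rw [mul_assoc ((1 + κ) ^ 2)]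
  have rr : (γ + δ) ^ (p - 1) ≤ 1 := rpow_le_one (by positivity) hr (by linarith)
  have r0 : 0 ≤ (γ + δ) ^ (p - 1) := by positivity
  rcases H3 with H3 | H3
  · nlinarith
  by_cases hu : (γ + δ) ^ (p - 1) * δ ≤ κ
  · nlinarith
  rw [not_le] at hu
  have δκ : κ ≤ δ := by nlinarith
  have rκ : κ ≤ (γ + δ) ^ (p - 1) := by nlinarith
  have r1 : 0 < γ + δ := by linarith
  have lk : log κ ≤ 0 := log_nonpos hκ.le hκ1
  have l1 := log_le_log hκ rκ
  rw [log_rpow r1] at l1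
  have l2 := log_le_sub_one_of_pos r1
  have l3 : 2 * log κ * p⁻¹ ≤ γ + δ - 1 := by
    rw [← div_eq_mul_inv, div_le_iff₀ p0]
    nlinarith
  rw [div_le_iff₀ hκ] at hL2
  have y1 : 1 + p⁻¹ ≤ γ + δ + δ * σ - c * p⁻¹ := by
    have : κ * (log (2 * p) * p⁻¹) ≤ δ * σ := mul_le_mul δκ σL (by positivity) δ0
    nlinarith
  have h := key (γ + δ + δ * σ - c * p⁻¹) (by linarith) (by
    refine le_trans (le_of_eq ?_) H2
    rw [e1]
    linear_combination δ * e2)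
  have b := (one_add_mul_self_le_rpow_one_add (s := p⁻¹) (by linarith) (p := p)
    (by linarith)).trans (rpow_le_rpow (by positivity) y1 p0.le)
  rw [mul_inv_cancel₀ p0.ne'] at b
  have e3 : 1 ≤ exp (1 / 2) := one_le_exp (by norm_num)
  have : 2 ≤ 2 * exp 1 * p * w ^ p := by nlinarith
  nlinarith

lemma split_le {p l r : ℝ} (hp : 1 < p) (hl : 0 < l) (r0 : 0 ≤ r) (r1 : r ≤ 1) :
    (1 - r) ^ (1 - p⁻¹) * r ^ p⁻¹ ≤ l ^ (-p⁻¹) * ((1 - p⁻¹) * (1 - r) + p⁻¹ * (l * r)) := by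
  have ip : 0 < p⁻¹ := inv_pos.2 (by linarith)
  have h := geom_mean_le_arith_mean2_weighted (w₁ := 1 - p⁻¹) (w₂ := p⁻¹) (p₁ := 1 - r)
    (p₂ := l * r) (sub_nonneg.2 (inv_le_one_of_one_le₀ hp.le)) ip.le (by linarith)
    (by positivity) (by ring)
  rw [rpow_neg hl.le, le_inv_mul_iff₀ (by positivity)]
  rw [mul_rpow hl.le r0] at h
  linarith

/-- The estimate from above for the extremal matrices. -/
lemma up_core {κ d α : ℝ} (hκ : 0 < κ) (d0 : 0 < d) (d1 : d < 1) (hα : 4 / (1 - d) ≤ α) :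
    ∀ᶠ p : ℝ in atTop, ∀ r : ℝ, 0 ≤ r → r ≤ 1 →
      |α / p * (1 - r) - d * r| + (1 - r) ^ (1 - p⁻¹) * r ^ p⁻¹ ≤
        ((1 + d) / ((1 + κ) * exp (α - 1)) * p) ^ (-p⁻¹) := by
  have d2 : 0 < 1 - d := by linarith
  have α0 : 0 < α := lt_of_lt_of_le (by positivity) hα
  obtain ⟨C, hC⟩ : ∃ C, C = (1 + d) / ((1 + κ) * exp (α - 1)) := ⟨_, rfl⟩
  have C0 : 0 < C := by rw [hC]; positivity
  rw [← hC]
  have T1 := tau_tendsto (A := 1 + d) (by linarith) (-1)
  have T2 : Tendsto (fun p : ℝ => (C * p) ^ (-p⁻¹)) atTop (𝓝 1) := by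
    simpa using tau_tendsto C0 0
  have T3 : Tendsto (fun p : ℝ => exp (α / ((1 + d) * p + -1) ^ (-p⁻¹) - 1) / (1 + d - p⁻¹)) atTop
      (𝓝 (exp (α - 1) / (1 + d))) := by
    have := ((continuous_exp.tendsto _).comp (((tendsto_const_nhds (x := α)).div T1
      one_ne_zero).sub_const 1)).div (tendsto_inv_atTop_zero.const_sub (1 + d)) (by linarith)
    simpa [Function.comp_def, Pi.div_def] using this
  have k : exp (α - 1) / (1 + d) < C⁻¹ := by
    rw [hC, inv_div]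
    exact div_lt_div_of_pos_right (by nlinarith [exp_pos (α - 1)]) (by linarith)
  filter_upwards [eventually_ge_atTop (1 + α), eventually_ge_atTop (2 / (1 - d)),
    T2.eventually (lt_mem_nhds (by linarith : (1 + d) / 2 < 1)),
    T3.eventually (gt_mem_nhds k)] with p hp hp2 h2 h3 r r0 r1
  have p1 : 1 < p := by linarith
  have p0 : 0 < p := by linarith
  have ip : 0 < p⁻¹ := inv_pos.2 p0
  have ip1 : p⁻¹ < 1 := inv_lt_one_of_one_lt₀ p1
  have hG : ∀ x : ℝ, 0 ≤ x → x ^ p ≤ (C * p)⁻¹ → x ≤ (C * p) ^ (-p⁻¹) := fun x hx h => by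
    rw [← tau_pow p0 (by positivity)] at h
    exact (rpow_le_rpow_iff hx (by positivity) p0).1 h
  have tau1 : ∀ l : ℝ, 1 ≤ l → l ^ (-p⁻¹) ≤ 1 := fun l hl =>
    rpow_le_one_of_one_le_of_nonpos hl (by linarith)
  have a0 : 0 ≤ α / p := by positivity
  rcases abs_cases (α / p * (1 - r) - d * r) with h | h <;> rw [h.1]
  · have l1 : 1 ≤ (1 + d) * p + -1 := by nlinarith [(div_le_iff₀ d2).1 hα, (div_le_iff₀ d2).1 hp2]
    have s := split_le p1 (l := (1 + d) * p + -1) (by linarith) r0 r1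
    obtain ⟨τ, hτ⟩ : ∃ τ, τ = ((1 + d) * p + -1) ^ (-p⁻¹) := ⟨_, rfl⟩
    have τ1 := tau1 _ l1
    have τp := tau_pow p0 (l := (1 + d) * p + -1) (by linarith)
    have τ0 : 0 < τ := by rw [hτ]; positivity
    rw [← hτ] at s τ1 τp h3
    have e : p⁻¹ * (((1 + d) * p + -1) * r) = (1 + d - p⁻¹) * r := by field_simp; ring
    have e2 : τ * (1 + (α / τ - 1) * p⁻¹) = α / p + τ * (1 - p⁻¹) := by field_simp; ring
    have u0 : 0 ≤ 1 + (α / τ - 1) * p⁻¹ := by
      nlinarith [mul_pos (div_pos α0 τ0) ip]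
    refine le_trans ?_ (hG (τ * (1 + (α / τ - 1) * p⁻¹)) (by positivity) ?_)
    · rw [e] at s
      rw [e2]
      nlinarith [mul_nonneg a0 r0, mul_nonneg (mul_nonneg d0.le r0) (sub_nonneg.2 τ1)]
    · rw [mul_rpow τ0.le u0, τp]
      have := one_add_rpow_le p0 u0
      rw [show p * ((α / τ - 1) * p⁻¹) = α / τ - 1 by field_simp] at this
      refine (mul_le_mul_of_nonneg_left this (by positivity)).trans ?_
      have e3 : ((1 + d) * p + -1)⁻¹ * exp (α / τ - 1) =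
          exp (α / τ - 1) / (1 + d - p⁻¹) * p⁻¹ := by
        have : (1 + d) * p + -1 = (1 + d - p⁻¹) * p := by field_simp; ring
        rw [this, mul_inv]; ring
      rw [e3, mul_inv]
      exact mul_le_mul_of_nonneg_right h3.le ip.le
  · have l1 : 1 ≤ (1 - d) * p / 2 := by nlinarith [(div_le_iff₀ d2).1 hp2]
    have s := split_le p1 (l := (1 - d) * p / 2) (by linarith) r0 r1
    obtain ⟨τ, hτ⟩ : ∃ τ, τ = ((1 - d) * p / 2) ^ (-p⁻¹) := ⟨_, rfl⟩
    have τ1 := tau1 _ l1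
    have τp := tau_pow p0 (l := (1 - d) * p / 2) (by linarith)
    have τ0 : 0 < τ := by rw [hτ]; positivity
    rw [← hτ] at s τ1 τp
    have e : p⁻¹ * ((1 - d) * p / 2 * r) = (1 - d) / 2 * r := by field_simp
    have u0 : 0 ≤ 1 + -(1 + α) * p⁻¹ := by
      have := mul_le_mul_of_nonneg_right hp ip.le
      rw [mul_inv_cancel₀ p0.ne'] at this
      linarith
    have E2 := hG (τ * (1 + -(1 + α) * p⁻¹)) (by positivity) (by
      rw [mul_rpow τ0.le u0, τp]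
      have := one_add_rpow_le p0 u0
      rw [show p * (-(1 + α) * p⁻¹) = -(1 + α) by field_simp] at this
      refine (mul_le_mul_of_nonneg_left this (by positivity)).trans ?_
      have e3 : ((1 - d) * p / 2)⁻¹ * exp (-(1 + α)) = 2 / (1 - d) * exp (-(1 + α)) * p⁻¹ := by
        field_simp
      rw [e3, mul_inv]
      refine mul_le_mul_of_nonneg_right (le_trans ?_ k.le) ip.le
      have e4 : exp (α - 1) = exp (2 * α) * exp (-(1 + α)) := by rw [← exp_add]; congr 1; ring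
      rw [e4, mul_div_right_comm]
      refine mul_le_mul_of_nonneg_right ?_ (exp_nonneg _)
      rw [le_div_iff₀ (by linarith)]
      have : 2 / (1 - d) * 2 = 4 / (1 - d) := by ring
      nlinarith [add_one_le_exp (2 * α), div_pos two_pos d2])
    rw [e] at s
    rw [div_eq_mul_inv α]
    nlinarith [mul_le_mul_of_nonneg_left E2 (sub_nonneg.2 r1), mul_le_mul_of_nonneg_left h2.le r0,
      mul_nonneg (mul_nonneg (mul_pos α0 ip).le (sub_nonneg.2 r1)) (sub_nonneg.2 τ1),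
      mul_nonneg (mul_nonneg d2.le r0) (sub_nonneg.2 τ1)]

end Pool.Agent.P.MP_c5b4b2_an.H
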