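import Pool.Agent.P.MP_c5b4b2_an.H.Real

/-! The choice of the scaling and of the radii of the discs. -/

namespace Pool.Agent.P.MP_c5b4b2_an.H

open Real Set

/-- A scaling `l` and majorants `M₁`, `M₂` of total cost at most `A`. -/
def Good (a b s₁ s₂ t₁ t₂ A : ℝ) : Prop :=
  ∃ l M₁ M₂ : ℝ, 0 < l ∧ 0 ≤ M₁ ∧ 0 ≤ M₂ ∧ l * s₁ ^ a ≤ M₁ ^ a ∧ l * s₂ ^ a ≤ M₂ ^ a ∧
    l⁻¹ * t₁ ^ b ≤ M₁ ^ b ∧ l⁻¹ * t₂ ^ b ≤ M₂ ^ b ∧
    M₁ + (s₁ ^ a * t₁ ^ b) ^ 2 / M₁ + (M₂ + (s₂ ^ a * t₂ ^ b) ^ 2 / M₂) ≤ A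

variable {a b s₁ s₂ t₁ t₂ : ℝ}

lemma Good.swap {A : ℝ} (h : Good a b s₁ s₂ t₁ t₂ A) : Good a b s₂ s₁ t₂ t₁ A := by
  obtain ⟨l, M₁, M₂, h1, h2, h3, h4, h5, h6, h7, h8⟩ := h
  exact ⟨l, M₂, M₁, h1, h3, h2, h5, h4, h7, h6, by linarith⟩

lemma scale {P Q d E D u u' c : ℝ} (hP : 0 ≤ P) (hQ : 0 ≤ Q) (hd : 0 < d) (hs : P + Q + d = 1)
    (hu : 0 ≤ u) (hu' : 0 ≤ u') (hsu : u + u' = 1) (p' : Q ≠ 0 → u' ≠ 0) (hc : 0 ≤ c)
    (hE : 2 * E = P * (log P + log (P + d)) + Q * (log Q + log (Q + d)))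
    (hD : 2 * d * D = P * (log (P + d) - log P) - Q * (log (Q + d) - log Q)) :
    exp (c * ((P * log u + Q * log u' - E) / d)) * u ^ c ≤ ((P + d) * exp D) ^ c := by
  have ha : 0 < P + d := by linarith
  rw [mul_comm c, exp_mul, ← mul_rpow (exp_nonneg _) hu]
  refine rpow_le_rpow (by positivity) ?_ hc
  rcases hu.eq_or_lt with rfl | hu0
  · rw [mul_zero]; positivity
  · have g := gibbs ha.le hQ (by linarith) hu hu' hsu (fun _ => hu0.ne') p'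
    have k : (P * log u + Q * log u' - E) / d + log u ≤ log (P + d) + D := by
      rw [← le_sub_iff_add_le, div_le_iff₀ hd]
      nlinarith
    have := exp_le_exp.2 k
    rwa [exp_add, exp_add, exp_log hu0, exp_log ha] at this

lemma log_w (ha : 0 < a) (hb : 0 < b) {P d s t : ℝ} (hP : 0 ≤ P) (hd : 0 < d) (hs : 0 ≤ s)
    (ht : 0 ≤ t) (h : (s ^ a * t ^ b) ^ 2 = P * (P + d)) :
    (P ≠ 0 → s ≠ 0) ∧ (P ≠ 0 → t ≠ 0) ∧
      2 * (a * (P * log s) + b * (P * log t)) = P * (log P + log (P + d)) := by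
  have h0 : 0 < P + d := by linarith
  have p1 : P ≠ 0 → s ≠ 0 := by
    rintro hp rfl
    rw [zero_rpow ha.ne', zero_mul, zero_pow two_ne_zero] at h
    exact mul_ne_zero hp h0.ne' h.symm
  have p2 : P ≠ 0 → t ≠ 0 := by
    rintro hp rfl
    rw [zero_rpow hb.ne', mul_zero, zero_pow two_ne_zero] at h
    exact mul_ne_zero hp h0.ne' h.symm
  refine ⟨p1, p2, ?_⟩
  by_cases hp : P = 0
  · simp [hp]
  · have s0 := hs.lt_of_ne' (p1 hp)
    have t0 := ht.lt_of_ne' (p2 hp)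
    have := congrArg log h
    rw [log_pow, log_mul (rpow_pos_of_pos s0 a).ne' (rpow_pos_of_pos t0 b).ne', log_rpow s0,
      log_rpow t0, log_mul hp h0.ne'] at this
    rw [← this]
    push_cast
    ring

theorem choice (ha : 0 < a) (hb : 0 < b) (hab : a + b = 1) (p₁ : 0 ≤ s₁) (p₂ : 0 ≤ s₂)
    (q₁ : 0 ≤ t₁) (q₂ : 0 ≤ t₂) (hs : s₁ + s₂ = 1) (ht : t₁ + t₂ = 1) :
    Good a b s₁ s₂ t₁ t₂ (2 + 15 / 32 * (s₁ ^ a * t₁ ^ b - s₂ ^ a * t₂ ^ b) ^ 2) := by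
  have y₁ := geom_mean_le_arith_mean2_weighted ha.le hb.le p₁ q₁ hab
  have y₂ := geom_mean_le_arith_mean2_weighted ha.le hb.le p₂ q₂ hab
  have hsum : a * s₁ + b * t₁ + (a * s₂ + b * t₂) = 1 := by
    linear_combination a * hs + b * ht + hab
  obtain ⟨w₁, e₁⟩ : ∃ w, w = s₁ ^ a * t₁ ^ b := ⟨_, rfl⟩
  obtain ⟨w₂, e₂⟩ : ∃ w, w = s₂ ^ a * t₂ ^ b := ⟨_, rfl⟩
  have n₁ : 0 ≤ w₁ := by rw [e₁]; positivity
  have n₂ : 0 ≤ w₂ := by rw [e₂]; positivity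
  rcases (show w₁ + w₂ ≤ 1 by linarith).eq_or_lt with h | h
  · obtain rfl := (geom_mean_eq_arith_mean2_weighted_iff_of_pos ha hb p₁ q₁ hab).1 (by linarith)
    obtain rfl := (geom_mean_eq_arith_mean2_weighted_iff_of_pos ha hb p₂ q₂ hab).1 (by linarith)
    refine ⟨1, s₁, s₂, one_pos, p₁, p₂, by simp, by simp, by simp, by simp, ?_⟩
    have k : ∀ s : ℝ, 0 ≤ s → (s ^ a * s ^ b) ^ 2 / s = s := fun s hs => by
      rw [← rpow_add_of_nonneg hs ha.le hb.le, hab, rpow_one, sq, mul_self_div_self]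
    rw [k _ p₁, k _ p₂]
    nlinarith [sq_nonneg (s₁ ^ a * s₁ ^ b - s₂ ^ a * s₂ ^ b)]
  · have hpos : 0 < (1 + w₁ ^ 2 - w₂ ^ 2) ^ 2 - 4 * w₁ ^ 2 := by
      have : (1 + w₁ ^ 2 - w₂ ^ 2) ^ 2 - 4 * w₁ ^ 2 =
          (1 - w₁ - w₂) * (1 - w₁ + w₂) * ((1 + w₁ - w₂) * (1 + w₁ + w₂)) := by ring
      rw [this]
      exact mul_pos (mul_pos (by linarith) (by linarith)) (mul_pos (by linarith) (by linarith))
    obtain ⟨d, hd, hd2⟩ : ∃ d, 0 < d ∧ d ^ 2 = (1 + w₁ ^ 2 - w₂ ^ 2) ^ 2 - 4 * w₁ ^ 2 :=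
      ⟨_, sqrt_pos.2 hpos, sq_sqrt hpos.le⟩
    obtain ⟨P, hP⟩ : ∃ P, 2 * P = 1 + w₁ ^ 2 - w₂ ^ 2 - d := ⟨(1 + w₁ ^ 2 - w₂ ^ 2 - d) / 2, by ring⟩
    obtain ⟨Q, hQ⟩ : ∃ Q, P + Q + d = 1 := ⟨1 - P - d, by ring⟩
    have f₁ : w₁ ^ 2 = P * (P + d) := by
      linear_combination (1 / 4) * hd2 - (1 / 4) * (2 * P + 1 + w₁ ^ 2 - w₂ ^ 2 + d) * hP
    have f₂ : w₂ ^ 2 = Q * (Q + d) := by
      linear_combination f₁ + hP + (P - Q - 1) * hQ
    have hPd : 0 < P + d := by nlinarith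
    have hQd : 0 < Q + d := by nlinarith
    have hP0 : 0 ≤ P := nonneg_of_mul_nonneg_left (f₁ ▸ sq_nonneg w₁) hPd
    have hQ0 : 0 ≤ Q := nonneg_of_mul_nonneg_left (f₂ ▸ sq_nonneg w₂) hQd
    obtain ⟨u₁, v₁, l₁⟩ := log_w ha hb hP0 hd p₁ q₁ (e₁ ▸ f₁)
    obtain ⟨u₂, v₂, l₂⟩ := log_w ha hb hQ0 hd p₂ q₂ (e₂ ▸ f₂)
    obtain ⟨D, hD⟩ : ∃ D, 2 * d * D = P * (log (P + d) - log P) - Q * (log (Q + d) - log Q) :=
      ⟨_, mul_div_cancel₀ _ (by positivity)⟩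
    obtain ⟨E, hE⟩ : ∃ E, E = a * (P * log s₁ + Q * log s₂) + b * (P * log t₁ + Q * log t₂) :=
      ⟨_, rfl⟩
    have hE2 : 2 * E = P * (log P + log (P + d)) + Q * (log Q + log (Q + d)) := by
      rw [← l₁, ← l₂, hE]; ring
    have hE3 : 2 * E = Q * (log Q + log (Q + d)) + P * (log P + log (P + d)) := by linarith
    have hD3 : 2 * d * -D = Q * (log (Q + d) - log Q) - P * (log (P + d) - log P) := by linarith
    have hinv : (exp (a * ((P * log s₁ + Q * log s₂ - E) / d)))⁻¹ =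
        exp (b * ((P * log t₁ + Q * log t₂ - E) / d)) := by
      rw [← exp_neg]
      congr 1
      field_simp
      linear_combination hE + E * hab
    refine ⟨exp (a * ((P * log s₁ + Q * log s₂ - E) / d)), (P + d) * exp D, (Q + d) * exp (-D),
      exp_pos _, by positivity, by positivity,
      scale hP0 hQ0 hd hQ p₁ p₂ hs u₂ ha.le hE2 hD, ?_, ?_, ?_, ?_⟩
    · rw [add_comm (P * log s₁)]
      exact scale hQ0 hP0 hd (by linarith) p₂ p₁ (by linarith) u₁ ha.le hE3 hD3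
    · rw [hinv]
      exact scale hP0 hQ0 hd hQ q₁ q₂ ht v₂ hb.le hE2 hD
    · rw [hinv, add_comm (P * log t₁)]
      exact scale hQ0 hP0 hd (by linarith) q₂ q₁ (by linarith) v₁ hb.le hE3 hD3
    · rw [← e₁, ← e₂]
      refine le_trans (le_of_eq ?_) (cost hP0 hQ0 hd hQ n₁ n₂ f₁ f₂ hD)
      have k₁ : w₁ ^ 2 / ((P + d) * exp D) = P * exp (-D) := by
        rw [f₁, exp_neg]; field_simp
      have k₂ : w₂ ^ 2 / ((Q + d) * exp (-D)) = Q * exp D := by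
        rw [f₂, exp_neg]; field_simp
      rw [k₁, k₂]
      linear_combination (exp D + exp (-D)) * hQ

lemma choice_eq (ha : 0 < a) (hb : 0 < b) (hab : a + b = 1) (hne : a ≠ b) (p₂ : 0 ≤ s₂)
    (q₁ : 0 ≤ t₁) (hs : s₁ + s₂ = 1) (ht : t₁ + t₂ = 1) (h₁ : s₂ ≤ s₁) (h₂ : t₁ ≤ t₂)
    (hw : s₁ ^ a * t₁ ^ b = s₂ ^ a * t₂ ^ b) :
    (s₁ = s₂ ∧ t₁ = t₂) ∨ ∃ A < 2, Good a b s₁ s₂ t₁ t₂ A := by
  have p₁ : 0 < s₁ := by linarith
  have q₂ : 0 < t₂ := by linarith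
  have y₂ := geom_mean_le_arith_mean2_weighted ha.le hb.le p₂ q₁ hab
  have hsum : a * s₁ + b * t₂ + (a * s₂ + b * t₁) = 1 := by
    linear_combination a * hs + b * ht + hab
  by_cases h : s₁ = t₂
  · subst h
    obtain rfl : s₂ = t₁ := by linarith
    rcases p₂.eq_or_lt with rfl | p₂
    · obtain rfl : s₁ = 1 := by linarith
      have k := (geom_mean_lt_arith_mean2_weighted_iff_of_pos ha hb (inv_pos.2 ha).le
        (inv_pos.2 hb).le hab).2 fun h => hne (inv_injective h)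
      rw [mul_inv_cancel₀ ha.ne', mul_inv_cancel₀ hb.ne'] at k
      set κ := a⁻¹ ^ a * b⁻¹ ^ b with hκ
      have hκ0 : 0 < κ := by positivity
      refine Or.inr ⟨κ, by linarith, (a * κ) ^ a, a * κ, b * κ, by positivity, by positivity,
        by positivity, by simp, ?_, ?_, ?_, ?_⟩
      · rw [zero_rpow ha.ne', mul_zero]; positivity
      · rw [zero_rpow hb.ne', mul_zero]; positivity
      · rw [one_rpow, mul_one, inv_le_iff_one_le_mul₀ (by positivity), mul_rpow ha.le hκ0.le,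
          mul_rpow hb.le hκ0.le]
        have : b ^ b * κ ^ b * (a ^ a * κ ^ a) = a ^ a * b ^ b * κ ^ (a + b) := by
          rw [rpow_add hκ0]; ring
        rw [this, hab, rpow_one, hκ, inv_rpow ha.le, inv_rpow hb.le]
        apply le_of_eq
        field_simp
      · rw [zero_rpow ha.ne', zero_rpow hb.ne']
        simp only [mul_zero, zero_mul, zero_pow two_ne_zero, zero_div, add_zero]
        rw [← add_mul, hab, one_mul]
    · have := congrArg log hw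
      rw [log_mul (rpow_pos_of_pos p₁ a).ne' (rpow_pos_of_pos p₂ b).ne',
        log_mul (rpow_pos_of_pos p₂ a).ne' (rpow_pos_of_pos p₁ b).ne', log_rpow p₁, log_rpow p₂,
        log_rpow p₁, log_rpow p₂] at this
      have k : (a - b) * (log s₁ - log s₂) = 0 := by linarith
      have k2 := log_injOn_pos p₁ p₂
        (sub_eq_zero.1 ((mul_eq_zero.1 k).resolve_left (sub_ne_zero.2 hne)))
      exact Or.inl ⟨k2, k2.symm⟩
  · have y₁ := (geom_mean_lt_arith_mean2_weighted_iff_of_pos ha hb p₁.le q₂.le hab).2 h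
    obtain ⟨Z, hZ⟩ : ∃ Z, Z = s₁ ^ a * t₂ ^ b := ⟨_, rfl⟩
    have sa := rpow_pos_of_pos p₁ a
    have Z0 : 0 < Z := by rw [hZ]; positivity
    have Za := rpow_pos_of_pos Z0 a
    have k : (Z ^ a / s₁ ^ a)⁻¹ * t₂ ^ b = Z ^ b := by
      have : Z ^ a * Z ^ b = s₁ ^ a * t₂ ^ b := by rw [← rpow_add Z0, hab, rpow_one, hZ]
      field_simp
      exact this.symm
    refine Or.inr ⟨2 * (Z + s₂ ^ a * t₁ ^ b), by linarith, Z ^ a / s₁ ^ a, Z, Z, by positivity,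
      Z0.le, Z0.le, (div_mul_cancel₀ _ sa.ne').le, ?_, ?_, k.le, ?_⟩
    · exact (mul_le_mul_of_nonneg_left (rpow_le_rpow p₂ h₁ ha.le) (by positivity)).trans
        (div_mul_cancel₀ _ sa.ne').le
    · exact (mul_le_mul_of_nonneg_left (rpow_le_rpow q₁ h₂ hb.le) (by positivity)).trans k.le
    · have : (s₁ ^ a * t₁ ^ b) ^ 2 / Z = s₂ ^ a * t₁ ^ b := by
        rw [div_eq_iff Z0.ne', sq, hZ]
        nth_rewrite 2 [hw]
        ring
      rw [← hw, this]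
      linarith

theorem choice_lt (ha : 0 < a) (hb : 0 < b) (hab : a + b = 1) (hne : a ≠ b) (p₁ : 0 ≤ s₁)
    (p₂ : 0 ≤ s₂) (q₁ : 0 ≤ t₁) (q₂ : 0 ≤ t₂) (hs : s₁ + s₂ = 1) (ht : t₁ + t₂ = 1) {γ : ℝ}
    (hγ : |s₁ ^ a * t₁ ^ b - s₂ ^ a * t₂ ^ b| ≤ γ) :
    (γ = 0 ∧ s₁ = s₂ ∧ t₁ = t₂) ∨ ∃ A < 2 + γ ^ 2 / 2, Good a b s₁ s₂ t₁ t₂ A := by
  rcases ((abs_nonneg _).trans hγ).eq_or_lt with rfl | h0
  · have hw := sub_eq_zero.1 (abs_nonpos_iff.1 hγ)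
    simp only [true_and, zero_pow two_ne_zero, zero_div, add_zero]
    have aux : ∀ {s s' t t' : ℝ}, 0 ≤ s' → 0 ≤ t' → s' < s → t' < t →
        s' ^ a * t' ^ b < s ^ a * t ^ b := fun hs' ht' h h' =>
      mul_lt_mul'' (rpow_lt_rpow hs' h ha) (rpow_lt_rpow ht' h' hb) (by positivity) (by positivity)
    by_cases h : s₂ ≤ s₁ ∧ t₁ ≤ t₂
    · exact choice_eq ha hb hab hne p₂ q₁ hs ht h.1 h.2 hw
    · have h' : s₁ ≤ s₂ ∧ t₂ ≤ t₁ := by
        by_contra h'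
        rw [not_and_or, not_le, not_le] at h h'
        rcases h with h | h <;> rcases h' with h' | h'
        · linarith
        · exact (aux p₁ q₁ h h').ne hw
        · exact (aux p₂ q₂ h' h).ne hw.symm
        · linarith
      rcases choice_eq ha hb hab hne p₁ q₂ (by linarith) (by linarith) h'.1 h'.2 hw.symm with k | k
      · exact Or.inl ⟨k.1.symm, k.2.symm⟩
      · exact Or.inr (k.imp fun A hA => ⟨hA.1, hA.2.swap⟩)
  · refine Or.inr ⟨_, ?_, choice ha hb hab p₁ p₂ q₁ q₂ hs ht⟩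
    have := pow_le_pow_left₀ (abs_nonneg _) hγ 2
    rw [sq_abs] at this
    nlinarith

end Pool.Agent.P.MP_c5b4b2_an.H
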