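import Pool.Agent.P.MP_c5b4b2_an.H.Choice

/-! Analytic discs and the maximum principle. -/

namespace Pool.Agent.P.MP_c5b4b2_an.H

open Set Metric Complex
open scoped ComplexConjugate

variable {a b : ℝ}

lemma cpow_disc {ω : ℂ} (hω : ‖ω‖ ≤ 1) {c : ℝ} (hc : 0 < c) :
    DiffContOnCl ℂ (fun z : ℂ => (1 + ω * z) ^ (c : ℂ)) (ball 0 1) := by
  have hre : ∀ z : ℂ, 1 - ‖ω‖ * ‖z‖ ≤ (1 + ω * z).re := fun z => by
    have := (abs_le.1 (abs_re_le_norm (ω * z))).1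
    rw [norm_mul] at this
    rw [add_re, one_re]
    linarith
  constructor
  · intro z hz
    rw [mem_ball_zero_iff] at hz
    refine (DifferentiableAt.cpow_const (by fun_prop) (Or.inl ?_)).differentiableWithinAt
    nlinarith [hre z, norm_nonneg z, norm_nonneg ω]
  · intro z hz
    rw [closure_ball _ one_ne_zero, mem_closedBall_zero_iff] at hz
    refine (ContinuousAt.comp (f := fun z : ℂ => 1 + ω * z) (g := fun x : ℂ => x ^ (c : ℂ))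
      (continuousAt_cpow_const_of_re_pos (Or.inl ?_) hc) (by fun_prop)).continuousWithinAt
    nlinarith [hre z, norm_nonneg z, norm_nonneg ω]

lemma blaschke {ω : ℂ} (hω : ‖ω‖ ≤ 1) : ∃ B : ℂ → ℂ, DiffContOnCl ℂ B (ball 0 1) ∧ B 0 = conj ω ∧
    ∀ z : ℂ, ‖z‖ = 1 → ‖B z‖ = 1 ∧ B z * (1 + ω * z) = z * conj (1 + ω * z) := by
  have hz : ∀ z : ℂ, ‖z‖ = 1 → z * conj (1 + ω * z) = z + conj ω := fun z hz => by
    have : z * conj z = 1 := by rw [mul_conj, normSq_eq_norm_sq, hz]; simp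
    rw [map_add, map_mul, map_one]
    linear_combination conj ω * this
  rcases hω.eq_or_lt with h | h
  · refine ⟨fun _ => conj ω, diffContOnCl_const, rfl, fun z h1 => ⟨by simpa using h, ?_⟩⟩
    have : ω * conj ω = 1 := by rw [mul_conj, normSq_eq_norm_sq, h]; simp
    rw [hz z h1]
    linear_combination z * this
  · have hne : ∀ z : ℂ, ‖z‖ ≤ 1 → 1 + ω * z ≠ 0 := fun z h1 h0 => by
      have := congrArg norm (eq_neg_of_add_eq_zero_left h0)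
      rw [norm_one, norm_neg, norm_mul] at this
      nlinarith [norm_nonneg z, norm_nonneg ω]
    refine ⟨fun z => (z + conj ω) / (1 + ω * z), DifferentiableOn.diffContOnCl ?_, by simp,
      fun z h1 => ⟨?_, by rw [hz z h1, div_mul_cancel₀ _ (hne z h1.le)]⟩⟩
    · rw [closure_ball _ one_ne_zero]
      exact DifferentiableOn.div (by fun_prop) (by fun_prop) fun z h1 =>
        hne z (mem_closedBall_zero_iff.1 h1)
    · beta_reduce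
      rw [← hz z h1, norm_div, norm_mul, h1, norm_conj, one_mul,
        div_self (norm_ne_zero_iff.2 (hne z h1.le))]

/-- A pair of analytic functions that are dual to each other on the circle. -/
def Pair (a b : ℝ) (X Y : ℂ) (A : ℝ) (U W : ℂ → ℂ) : Prop :=
  DiffContOnCl ℂ U (ball 0 1) ∧ DiffContOnCl ℂ W (ball 0 1) ∧ U 0 = X ∧ W 0 = Y ∧
    ∀ z : ℂ, ‖z‖ = 1 → ∃ ρ : ℝ, 0 ≤ ρ ∧ ‖U z‖ = ρ ^ a ∧ ‖W z‖ = ρ ^ b ∧ U z * W z = z * ρ ∧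
      ρ ≤ A + 2 * (conj (X * Y) * z).re

lemma pair_one (ha : 0 < a) (hb : 0 < b) (hab : a + b = 1) {X Y : ℂ} {N : ℝ} (hN : 0 < N)
    (hX : ‖X‖ = N ^ a) (hY : ‖Y‖ ≤ N ^ b) : ∃ U W, Pair a b X Y (N + ‖X * Y‖ ^ 2 / N) U W := by
  have hNa := Real.rpow_pos_of_pos hN a
  have hNN : N ^ a * N ^ b = N := by rw [← Real.rpow_add hN, hab, Real.rpow_one]
  have hX0 : X ≠ 0 := norm_pos_iff.1 (hX ▸ hNa)
  have hNc : (N : ℂ) ≠ 0 := by exact_mod_cast hN.ne'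
  obtain ⟨ω, hω⟩ : ∃ ω, ω = conj (X * Y) / N := ⟨_, rfl⟩
  have hω1 : ‖ω‖ = ‖X * Y‖ / N := by
    rw [hω, norm_div, norm_conj, norm_real, Real.norm_of_nonneg hN.le]
  have hω2 : ‖ω‖ ≤ 1 := by
    rw [hω1, div_le_one hN, norm_mul, hX, ← hNN, hNN]
    exact (mul_le_mul_of_nonneg_left hY hNa.le).trans hNN.le
  obtain ⟨B, hB, hB0, hBz⟩ := blaschke hω2
  refine ⟨fun z => X * (1 + ω * z) ^ ((2 * a : ℝ) : ℂ),
    fun z => N / X * ((1 + ω * z) ^ ((2 * b : ℝ) : ℂ) * B z),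
    (cpow_disc hω2 (by positivity)).const_smul X,
    ((cpow_disc hω2 (by positivity)).smul hB).const_smul (N / X : ℂ), by simp, ?_,
    fun z hz => ⟨N * ‖1 + ω * z‖ ^ 2, by positivity, ?_, ?_, ?_, le_of_eq ?_⟩⟩
  · simp only [mul_zero, add_zero, one_cpow, one_mul, hB0]
    rw [hω, map_div₀, conj_conj, conj_ofReal]
    field_simp
  · rw [norm_mul, norm_cpow_real, hX, Real.mul_rpow hN.le (sq_nonneg _),
      Real.rpow_mul (norm_nonneg _), Real.rpow_two]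
  · rw [norm_mul, norm_mul, norm_cpow_real, (hBz z hz).1, norm_div, hX, norm_real,
      Real.norm_of_nonneg hN.le, Real.mul_rpow hN.le (sq_nonneg _),
      Real.rpow_mul (norm_nonneg _), Real.rpow_two, mul_one]
    congr 1
    rw [div_eq_iff hNa.ne', mul_comm, hNN]
  · have k : (1 + ω * z) ^ ((2 * a : ℝ) : ℂ) * (1 + ω * z) ^ ((2 * b : ℝ) : ℂ) =
        (1 + ω * z) ^ 2 := by
      by_cases h0 : 1 + ω * z = 0
      · rw [h0, zero_cpow (by exact_mod_cast (by positivity : 2 * a ≠ 0))]; simp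
      · rw [← cpow_add _ _ h0, ← ofReal_add, ← mul_add, hab, mul_one, ofReal_ofNat, cpow_ofNat]
    have k2 : (1 + ω * z) * conj (1 + ω * z) = (‖1 + ω * z‖ : ℂ) ^ 2 := by
      rw [mul_conj, normSq_eq_norm_sq]; simp
    have k3 : X * (N / X) = N := mul_div_cancel₀ _ hX0
    push_cast at k ⊢
    rw [← k2]
    linear_combination (N * B z) * k + (N * (1 + ω * z)) * (hBz z hz).2 +
      ((1 + ω * z) ^ (2 * a : ℂ) * (1 + ω * z) ^ (2 * b : ℂ) * B z) * k3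
  · have k : conj (X * Y) * z = N * (ω * z) := by rw [hω]; field_simp
    have k2 : ‖X * Y‖ = N * ‖ω * z‖ := by rw [norm_mul ω, hz, hω1]; field_simp
    rw [k, k2, re_ofReal_mul, mul_pow, Complex.sq_norm, Complex.sq_norm, normSq_add]
    simp only [map_one, one_mul, conj_re]
    field_simp

lemma pair (ha : 0 < a) (hb : 0 < b) (hab : a + b = 1) {X Y : ℂ} {M : ℝ} (hM : 0 ≤ M)
    (hX : ‖X‖ ≤ M ^ a) (hY : ‖Y‖ ≤ M ^ b) : ∃ U W, Pair a b X Y (M + ‖X * Y‖ ^ 2 / M) U W := by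
  have key : ∀ {a b : ℝ}, 0 < a → 0 < b → a + b = 1 → ∀ {X Y : ℂ}, ‖X‖ ≤ M ^ a →
      ‖Y‖ ^ b⁻¹ ≤ ‖X‖ ^ a⁻¹ → ∃ U W, Pair a b X Y (M + ‖X * Y‖ ^ 2 / M) U W := by
    intro a b ha hb hab X Y hX h
    have e1 : ‖X‖ = (‖X‖ ^ a⁻¹) ^ a := (Real.rpow_inv_rpow (norm_nonneg _) ha.ne').symm
    have e2 : ‖Y‖ ≤ (‖X‖ ^ a⁻¹) ^ b := by
      have := Real.rpow_le_rpow (by positivity) h hb.le
      rwa [Real.rpow_inv_rpow (norm_nonneg _) hb.ne'] at this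
    have e3 : ‖X‖ ^ a⁻¹ ≤ M := by
      have := Real.rpow_le_rpow (norm_nonneg _) hX (inv_pos.2 ha).le
      rwa [Real.rpow_rpow_inv hM ha.ne'] at this
    obtain ⟨N, hN⟩ : ∃ N, N = ‖X‖ ^ a⁻¹ := ⟨_, rfl⟩
    have N0 : 0 ≤ N := by rw [hN]; positivity
    rw [← hN] at e1 e2 e3
    rcases N0.eq_or_lt with rfl | N0
    · rw [Real.zero_rpow ha.ne', norm_eq_zero] at e1
      rw [Real.zero_rpow hb.ne', norm_le_zero_iff] at e2
      subst e1 e2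
      exact ⟨fun _ => 0, fun _ => 0, diffContOnCl_const, diffContOnCl_const, rfl, rfl,
        fun z _ => ⟨0, le_rfl, by simp [ha.ne'], by simp [hb.ne'], by simp, by simpa using hM⟩⟩
    · obtain ⟨U, W, h1, h2, h3, h4, h5⟩ := pair_one ha hb hab N0 e1 e2
      refine ⟨U, W, h1, h2, h3, h4, fun z hz => (h5 z hz).imp fun ρ k =>
        ⟨k.1, k.2.1, k.2.2.1, k.2.2.2.1, k.2.2.2.2.trans (add_le_add_left ?_ _)⟩⟩
      have w : ‖X * Y‖ ≤ N := by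
        rw [norm_mul, e1]
        refine (mul_le_mul_of_nonneg_left e2 (by positivity)).trans_eq ?_
        rw [← Real.rpow_add N0, hab, Real.rpow_one]
      have M0 : 0 < M := N0.trans_le e3
      have w2 : ‖X * Y‖ ^ 2 ≤ N * M := by nlinarith [norm_nonneg (X * Y)]
      rw [← sub_nonneg]
      have : M + ‖X * Y‖ ^ 2 / M - (N + ‖X * Y‖ ^ 2 / N) =
          (M - N) * (N * M - ‖X * Y‖ ^ 2) / (N * M) := by field_simp; ring
      rw [this]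
      exact div_nonneg (mul_nonneg (by linarith) (by linarith)) (by positivity)
  rcases le_total (‖Y‖ ^ b⁻¹) (‖X‖ ^ a⁻¹) with h | h
  · exact key ha hb hab hX h
  · obtain ⟨W, U, h1, h2, h3, h4, h5⟩ := key hb ha (by linarith) hY h
    rw [mul_comm Y] at h5
    exact ⟨U, W, h2, h1, h4, h3, fun z hz => (h5 z hz).imp fun ρ k =>
      ⟨k.1, k.2.2.1, k.2.1, (mul_comm _ _).trans k.2.2.2.1, k.2.2.2.2⟩⟩

/-- The bilinear form of a matrix. -/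
def form (t : ℂ × ℂ × ℂ × ℂ) (W₁ W₂ U₁ U₂ : ℂ) : ℂ :=
  W₁ * (t.1 * U₁ + t.2.1 * U₂) + W₂ * (t.2.2.1 * U₁ + t.2.2.2 * U₂)

/-- The numerical radius of the matrix is at most `v`. -/
def Rad (a b : ℝ) (t : ℂ × ℂ × ℂ × ℂ) (v : ℝ) : Prop :=
  ∀ (ρ₁ ρ₂ : ℝ) (U₁ U₂ W₁ W₂ z : ℂ), 0 ≤ ρ₁ → 0 ≤ ρ₂ → ‖z‖ = 1 → ‖U₁‖ = ρ₁ ^ a → ‖U₂‖ = ρ₂ ^ a →
    ‖W₁‖ = ρ₁ ^ b → ‖W₂‖ = ρ₂ ^ b → U₁ * W₁ = z * ρ₁ → U₂ * W₂ = z * ρ₂ →
    ‖form t W₁ W₂ U₁ U₂‖ ≤ v * (ρ₁ + ρ₂)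

variable {t : ℂ × ℂ × ℂ × ℂ} {v : ℝ}

lemma bound (ha : 0 < a) (hb : 0 < b) (hab : a + b = 1) (hv : 0 ≤ v) (hR : Rad a b t v)
    {X₁ X₂ Y₁ Y₂ : ℂ} {M₁ M₂ K : ℝ} (m₁ : 0 ≤ M₁) (m₂ : 0 ≤ M₂) (x₁ : ‖X₁‖ ≤ M₁ ^ a)
    (x₂ : ‖X₂‖ ≤ M₂ ^ a) (y₁ : ‖Y₁‖ ≤ M₁ ^ b) (y₂ : ‖Y₂‖ ≤ M₂ ^ b)
    (hK : ‖X₁ * Y₁ + X₂ * Y₂‖ < K)
    (hA : M₁ + ‖X₁ * Y₁‖ ^ 2 / M₁ + (M₂ + ‖X₂ * Y₂‖ ^ 2 / M₂) ≤
      K + ‖X₁ * Y₁ + X₂ * Y₂‖ ^ 2 / K) : ‖form t Y₁ Y₂ X₁ X₂‖ ≤ K * v := by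
  obtain ⟨U₁, W₁, u₁, w₁, rfl, rfl, z₁⟩ := pair ha hb hab m₁ x₁ y₁
  obtain ⟨U₂, W₂, u₂, w₂, rfl, rfl, z₂⟩ := pair ha hb hab m₂ x₂ y₂
  have K0 : 0 < K := (norm_nonneg _).trans_lt hK
  have Kc : (K : ℂ) ≠ 0 := by exact_mod_cast K0.ne'
  obtain ⟨γ, hγ⟩ : ∃ γ, γ = conj (U₁ 0 * W₁ 0 + U₂ 0 * W₂ 0) / K := ⟨_, rfl⟩
  have γ1 : ‖γ‖ = ‖U₁ 0 * W₁ 0 + U₂ 0 * W₂ 0‖ / K := by
    rw [hγ, norm_div, norm_conj, norm_real, Real.norm_of_nonneg K0.le]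
  have γ2 : ‖γ‖ < 1 := by rwa [γ1, div_lt_one K0]
  have hne : ∀ z : ℂ, ‖z‖ ≤ 1 → 1 + γ * z ≠ 0 := fun z h1 h0 => by
    have := congrArg norm (eq_neg_of_add_eq_zero_left h0)
    rw [norm_one, norm_neg, norm_mul] at this
    nlinarith [norm_nonneg z, norm_nonneg γ]
  have hk : DiffContOnCl ℂ (fun z : ℂ => ((1 + γ * z) ^ 2)⁻¹) (ball 0 1) := by
    refine DifferentiableOn.diffContOnCl ?_
    rw [closure_ball _ one_ne_zero]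
    exact DifferentiableOn.inv (by fun_prop) fun z h1 =>
      pow_ne_zero _ (hne z (mem_closedBall_zero_iff.1 h1))
  have hF : DiffContOnCl ℂ
      (fun z => ((1 + γ * z) ^ 2)⁻¹ * form t (W₁ z) (W₂ z) (U₁ z) (U₂ z)) (ball 0 1) :=
    hk.smul ((w₁.smul ((u₁.const_smul t.1).add (u₂.const_smul t.2.1))).add
      (w₂.smul ((u₁.const_smul t.2.2.1).add (u₂.const_smul t.2.2.2))))
  have := norm_le_of_forall_mem_frontier_norm_le isBounded_ball hF (C := K * v) (z := 0) ?_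
    (subset_closure (mem_ball_self one_pos))
  · simpa using this
  intro z hz
  rw [frontier_ball _ one_ne_zero, mem_sphere_zero_iff_norm] at hz
  obtain ⟨ρ₁, r₁, a₁, b₁, c₁, d₁⟩ := z₁ z hz
  obtain ⟨ρ₂, r₂, a₂, b₂, c₂, d₂⟩ := z₂ z hz
  have n0 : 0 < ‖1 + γ * z‖ ^ 2 := pow_pos (norm_pos_iff.2 (hne z hz.le)) 2
  rw [norm_mul, norm_inv, norm_pow, inv_mul_le_iff₀ n0]
  refine (hR ρ₁ ρ₂ _ _ _ _ z r₁ r₂ hz a₁ a₂ b₁ b₂ c₁ c₂).trans ?_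
  rw [← mul_assoc, mul_comm _ v]
  refine mul_le_mul_of_nonneg_left ?_ hv
  have k : (conj (U₁ 0 * W₁ 0) * z).re + (conj (U₂ 0 * W₂ 0) * z).re = K * (γ * z).re := by
    rw [← add_re, ← add_mul, ← map_add, ← re_ofReal_mul, hγ]
    congr 1
    field_simp
  have k2 : ‖U₁ 0 * W₁ 0 + U₂ 0 * W₂ 0‖ ^ 2 / K = K * normSq (γ * z) := by
    rw [normSq_eq_norm_sq, norm_mul γ, hz, γ1]; field_simp
  rw [Complex.sq_norm, normSq_add]
  simp only [map_one, one_mul, conj_re]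
  linarith

end Pool.Agent.P.MP_c5b4b2_an.H
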