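import Pool.Agent.P.MP_c5b4b2_an.H.Disc
import Pool.Agent.P.MP_c5b4b2_an.All

/-! The numerical index of the complex plane with the `p`-norm exceeds one half. -/

set_option linter.unusedSectionVars false

namespace Pool.Agent.P.MP_c5b4b2_an.H

open Set Metric Complex All
open scoped ComplexConjugate ENNReal

variable {a b : ℝ} {t : ℂ × ℂ × ℂ × ℂ} {v : ℝ}

lemma special (ha : 0 < a) (hb : 0 < b) (hab : a + b = 1) (hne : a ≠ b) (hv : 0 < v)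
    (hR : Rad a b t v) {X₁ X₂ Y₁ Y₂ : ℂ} (x₁ : ‖X₁‖ = (1 / 2 : ℝ) ^ a) (x₂ : ‖X₂‖ = (1 / 2 : ℝ) ^ a)
    (y₁ : ‖Y₁‖ = (1 / 2 : ℝ) ^ b) (y₂ : ‖Y₂‖ = (1 / 2 : ℝ) ^ b) (hc : X₁ * Y₁ + X₂ * Y₂ = 0) :
    ‖form t Y₁ Y₂ X₁ X₂‖ < 2 * v := by
  have he : ‖2 * (X₁ * Y₁)‖ = 1 := by
    rw [norm_mul, norm_mul, x₁, y₁, ← Real.rpow_add (by norm_num), hab]; simp
  have hn : ∀ {s c : ℝ} {X : ℂ}, 0 ≤ s → ‖X‖ = (1 / 2 : ℝ) ^ c →
      ‖(((2 * s) ^ c : ℝ) : ℂ) * X‖ = s ^ c := fun {s c X} hs hX => by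
    rw [norm_mul, hX, norm_real, Real.norm_of_nonneg (by positivity),
      ← Real.mul_rpow (by positivity) (by norm_num)]
    congr 1
    ring
  have hm : ∀ {s : ℝ}, 0 ≤ s → (((2 * s) ^ a : ℝ) : ℂ) * (((2 * s) ^ b : ℝ) : ℂ) = 2 * s :=
    fun {s} hs => by
      rw [← ofReal_mul, ← Real.rpow_add_of_nonneg (by positivity) ha.le hb.le, hab, Real.rpow_one]
      simp
  obtain ⟨A₁, hA₁⟩ : ∃ A, A = Y₁ * t.1 * X₁ := ⟨_, rfl⟩
  obtain ⟨A₂, hA₂⟩ : ∃ A, A = Y₂ * t.2.2.2 * X₂ := ⟨_, rfl⟩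
  obtain ⟨B₁, hB₁⟩ : ∃ B, B = Y₁ * t.2.1 * X₂ := ⟨_, rfl⟩
  obtain ⟨B₂, hB₂⟩ : ∃ B, B = Y₂ * t.2.2.1 * X₁ := ⟨_, rfl⟩
  have one : ∀ (s r : ℝ) (j : ℂ), 0 ≤ s → 0 ≤ r → s + r = 1 → j * j = -1 → ‖j‖ = 1 →
      ‖2 * s * A₁ - 2 * r * A₂ + j * ((((2 * s) ^ b : ℝ) : ℂ) * (((2 * r) ^ a : ℝ) : ℂ) * B₁ +
        (((2 * r) ^ b : ℝ) : ℂ) * (((2 * s) ^ a : ℝ) : ℂ) * B₂)‖ ≤ v := by
    intro s r j hs hr hsr hj hj1
    have := hR s r ((((2 * s) ^ a : ℝ) : ℂ) * X₁) (j * ((((2 * r) ^ a : ℝ) : ℂ) * X₂))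
      ((((2 * s) ^ b : ℝ) : ℂ) * Y₁) (j * ((((2 * r) ^ b : ℝ) : ℂ) * Y₂)) _ hs hr he (hn hs x₁)
      (by rw [norm_mul, hj1, hn hr x₂, one_mul]) (hn hs y₁)
      (by rw [norm_mul, hj1, hn hr y₂, one_mul]) (by linear_combination X₁ * Y₁ * hm hs)
      (by
        linear_combination (j * j * (X₂ * Y₂)) * hm hr + (2 * r * (X₂ * Y₂)) * hj - 2 * r * hc)
    rw [hsr, mul_one] at this
    convert this using 2
    rw [form, hA₁, hA₂, hB₁, hB₂]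
    linear_combination -(Y₁ * t.1 * X₁) * hm hs - (j * j * (Y₂ * t.2.2.2 * X₂)) * hm hr -
      (2 * r * (Y₂ * t.2.2.2 * X₂)) * hj
  have two : ∀ s r : ℝ, 0 ≤ s → 0 ≤ r → s + r = 1 → (2 * (s - r)) ^ 2 * ‖A₁ + A₂‖ ^ 2 +
      ((2 * s) ^ b * (2 * r) ^ a + (2 * r) ^ b * (2 * s) ^ a) ^ 2 * ‖B₁ + B₂‖ ^ 2 ≤ 4 * v ^ 2 := by
    intro s r hs hr hsr
    have k : ∀ j : ℂ, j * j = -1 → ‖j‖ = 1 → ‖((2 * (s - r) : ℝ) : ℂ) * (A₁ + A₂) +
        j * ((((2 * s) ^ b * (2 * r) ^ a + (2 * r) ^ b * (2 * s) ^ a : ℝ) : ℂ) * (B₁ + B₂))‖ ≤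
          2 * v := fun j hj hj1 => by
      have := (norm_sub_le _ _).trans (add_le_add (one s r j hs hr hsr hj hj1)
        (one r s (-j) hr hs (by linarith) (by linear_combination hj) (by rwa [norm_neg])))
      rw [two_mul v]
      refine le_of_eq_of_le (congrArg norm ?_) this
      simp only [ofReal_mul, ofReal_add, ofReal_sub, ofReal_ofNat]
      ring
    have k1 := pow_le_pow_left₀ (norm_nonneg _) (k I I_mul_I norm_I) 2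
    have k2 := pow_le_pow_left₀ (norm_nonneg _) (k (-I) (by simp) (by simp)) 2
    rw [neg_mul, ← sub_eq_add_neg] at k2
    have k3 := parallelogram_law_with_norm ℂ (((2 * (s - r) : ℝ) : ℂ) * (A₁ + A₂))
      (I * ((((2 * s) ^ b * (2 * r) ^ a + (2 * r) ^ b * (2 * s) ^ a : ℝ) : ℂ) * (B₁ + B₂)))
    rw [norm_mul (((2 * (s - r) : ℝ) : ℂ)), norm_mul I, norm_I, one_mul,
      norm_mul _ (B₁ + B₂), norm_real, norm_real, Real.norm_eq_abs, Real.norm_eq_abs] at k3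
    rw [← sq_abs (2 * (s - r)), ← sq_abs (_ + _)]
    nlinarith
  have hA := two 1 0 zero_le_one le_rfl (by norm_num)
  have hB := two (1 / 2) (1 / 2) (by norm_num) (by norm_num) (by norm_num)
  have hC := two (3 / 4) (1 / 4) (by norm_num) (by norm_num) (by norm_num)
  simp only [mul_zero, Real.zero_rpow ha.ne', Real.zero_rpow hb.ne'] at hA
  norm_num at hA hB hC
  have e : form t Y₁ Y₂ X₁ X₂ = (A₁ + A₂) + (B₁ + B₂) := by
    rw [form, hA₁, hA₂, hB₁, hB₂]; ring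
  have g1 : (3 / 2 : ℝ) ^ b * (1 / 2) ^ a * ((1 / 2) ^ b * (3 / 2) ^ a) = 3 / 4 := by
    have : (3 / 2 : ℝ) ^ b * (1 / 2) ^ a * ((1 / 2) ^ b * (3 / 2) ^ a) =
        (3 / 2) ^ (a + b) * (1 / 2) ^ (a + b) := by
      rw [Real.rpow_add (by norm_num), Real.rpow_add (by norm_num)]; ring
    rw [this, hab]; norm_num
  have g2 : (3 / 2 : ℝ) ^ b * (1 / 2) ^ a ≠ (1 / 2) ^ b * (3 / 2) ^ a := fun h => by
    have := congrArg Real.log h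
    rw [Real.log_mul (by positivity) (by positivity), Real.log_mul (by positivity) (by positivity),
      Real.log_rpow (by norm_num), Real.log_rpow (by norm_num), Real.log_rpow (by norm_num),
      Real.log_rpow (by norm_num)] at this
    have k : (a - b) * (Real.log (3 / 2) - Real.log (1 / 2)) = 0 := by linarith
    have k2 : Real.log (1 / 2) < Real.log (3 / 2) := Real.log_lt_log (by norm_num) (by norm_num)
    exact mul_ne_zero (sub_ne_zero.2 hne) (sub_pos.2 k2).ne' k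
  have g3 : 3 < ((3 / 2 : ℝ) ^ b * (1 / 2) ^ a + (1 / 2) ^ b * (3 / 2) ^ a) ^ 2 := by
    nlinarith [sq_pos_of_ne_zero (sub_ne_zero.2 g2)]
  rw [e]
  refine (norm_add_le _ _).trans_lt ?_
  have nA : ‖A₁ + A₂‖ ≤ v := abs_le_of_sq_le_sq' (by linarith) hv.le |>.2
  have nB : ‖B₁ + B₂‖ ≤ v := abs_le_of_sq_le_sq' (by linarith) hv.le |>.2
  by_contra hcon
  have eA : ‖A₁ + A₂‖ = v := by linarith
  have eB : ‖B₁ + B₂‖ = v := by linarith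
  rw [eA, eB] at hC
  nlinarith [pow_pos hv 2]

theorem strict (ha : 0 < a) (hb : 0 < b) (hab : a + b = 1) (hne : a ≠ b) (hv : 0 < v)
    (hR : Rad a b t v) {s₁ s₂ t₁ t₂ : ℝ} (p₁ : 0 ≤ s₁) (p₂ : 0 ≤ s₂) (q₁ : 0 ≤ t₁) (q₂ : 0 ≤ t₂)
    (hs : s₁ + s₂ = 1) (ht : t₁ + t₂ = 1) {X₁ X₂ Y₁ Y₂ : ℂ} (x₁ : ‖X₁‖ = s₁ ^ a)
    (x₂ : ‖X₂‖ = s₂ ^ a) (y₁ : ‖Y₁‖ = t₁ ^ b) (y₂ : ‖Y₂‖ = t₂ ^ b) :
    ‖form t Y₁ Y₂ X₁ X₂‖ < 2 * v := by
  have w₁ : ‖X₁ * Y₁‖ = s₁ ^ a * t₁ ^ b := by rw [norm_mul, x₁, y₁]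
  have w₂ : ‖X₂ * Y₂‖ = s₂ ^ a * t₂ ^ b := by rw [norm_mul, x₂, y₂]
  have hγ : |s₁ ^ a * t₁ ^ b - s₂ ^ a * t₂ ^ b| ≤ ‖X₁ * Y₁ + X₂ * Y₂‖ := by
    have := abs_norm_sub_norm_le (X₁ * Y₁) (-(X₂ * Y₂))
    rwa [norm_neg, sub_neg_eq_add, w₁, w₂] at this
  have hγ1 : ‖X₁ * Y₁ + X₂ * Y₂‖ ≤ 1 := by
    refine (norm_add_le _ _).trans ?_
    rw [w₁, w₂]
    have k₁ := Real.geom_mean_le_arith_mean2_weighted ha.le hb.le p₁ q₁ hab
    have k₂ := Real.geom_mean_le_arith_mean2_weighted ha.le hb.le p₂ q₂ hab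
    have : a * s₁ + b * t₁ + (a * s₂ + b * t₂) = 1 := by linear_combination a * hs + b * ht + hab
    linarith
  rcases choice_lt ha hb hab hne p₁ p₂ q₁ q₂ hs ht hγ with ⟨h0, h1, h2⟩ |
    ⟨A, hA, l, M₁, M₂, l0, m₁, m₂, c₁, c₂, d₁, d₂, hc⟩
  · obtain rfl : s₁ = 1 / 2 := by linarith
    obtain rfl : s₂ = 1 / 2 := h1.symm
    obtain rfl : t₁ = 1 / 2 := by linarith
    obtain rfl : t₂ = 1 / 2 := h2.symm
    exact special ha hb hab hne hv hR x₁ x₂ y₁ y₂ (norm_eq_zero.1 h0)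
  · have lc : (l : ℂ) ≠ 0 := by exact_mod_cast l0.ne'
    have e : ∀ X Y : ℂ, l * X * ((l⁻¹ : ℝ) * Y) = X * Y := fun X Y => by
      push_cast; field_simp
    have n : ∀ (c : ℝ) (X : ℂ), 0 < c → ‖c * X‖ = c * ‖X‖ := fun c X hc => by
      rw [norm_mul, norm_real, Real.norm_of_nonneg hc.le]
    obtain ⟨γ, hγ⟩ : ∃ γ, γ = ‖X₁ * Y₁ + X₂ * Y₂‖ := ⟨_, rfl⟩
    rw [← hγ] at hA hγ1
    have K1 : 3 / 2 ≤ max (3 / 2) (A - γ ^ 2 / 2) := le_max_left _ _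
    have K2 : A - γ ^ 2 / 2 ≤ max (3 / 2) (A - γ ^ 2 / 2) := le_max_right _ _
    have K3 : max (3 / 2) (A - γ ^ 2 / 2) < 2 := max_lt (by norm_num) (by linarith)
    have := bound ha hb hab hv.le hR (X₁ := l * X₁) (X₂ := l * X₂) (Y₁ := (l⁻¹ : ℝ) * Y₁)
      (Y₂ := (l⁻¹ : ℝ) * Y₂) (K := max (3 / 2) (A - γ ^ 2 / 2)) m₁ m₂ (by rwa [n _ _ l0, x₁])
      (by rwa [n _ _ l0, x₂]) (by rwa [n _ _ (inv_pos.2 l0), y₁])
      (by rwa [n _ _ (inv_pos.2 l0), y₂]) (by rw [e, e, ← hγ]; linarith) (by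
        rw [e, e, ← hγ, w₁, w₂]
        have := div_le_div_of_nonneg_left (sq_nonneg γ) (by linarith) K3.le
        linarith)
    have e2 : form t ((l⁻¹ : ℝ) * Y₁) ((l⁻¹ : ℝ) * Y₂) (l * X₁) (l * X₂) = form t Y₁ Y₂ X₁ X₂ := by
      unfold form; push_cast; field_simp
    rw [e2] at this
    exact this.trans_lt (mul_lt_mul_of_pos_right K3 hv)

section general

variable {X : Type} [NormedAddCommGroup X] [NormedSpace ℂ X]

lemma le_nr (T : X →L[ℂ] X) {x : X} {f : X →L[ℂ] ℂ} (hx : ‖x‖ = 1) (hf : ‖f‖ = 1) (h : f x = 1) :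
    ‖f (T x)‖ ≤ nr T := by
  refine le_csSup ⟨‖T‖, ?_⟩ ⟨x, f, hx, hf, h, rfl⟩
  rintro _ ⟨x, f, hx, hf, -, rfl⟩
  simpa [hx, hf] using f.le_of_opNorm_le_of_le le_rfl (T.le_opNorm x)

lemma nr_nonneg (T : X →L[ℂ] X) : 0 ≤ nr T :=
  Real.sSup_nonneg (by rintro _ ⟨x, f, -, -, -, rfl⟩; exact norm_nonneg _)

lemma nr_lip : LipschitzWith 1 (nr : (X →L[ℂ] X) → ℝ) := by
  refine LipschitzWith.of_le_add fun T S => Real.sSup_le ?_ (add_nonneg (nr_nonneg S) dist_nonneg)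
  rintro _ ⟨x, f, hx, hf, h, rfl⟩
  have e : f (T x) = f (S x) + f ((T - S) x) := by simp
  rw [e, dist_eq_norm]
  refine (norm_add_le _ _).trans (add_le_add (le_nr S hx hf h) ?_)
  simpa [hx, hf] using f.le_of_opNorm_le_of_le le_rfl ((T - S).le_opNorm x)

lemma lt_ni [FiniteDimensional ℂ X] [Nontrivial X] {c : ℝ}
    (h : ∀ (T : X →L[ℂ] X) (x : X), ‖x‖ = 1 → ‖T x‖ = 1 → c < nr T) : c < ni X := by
  have := FiniteDimensional.proper ℂ X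
  have := FiniteDimensional.proper ℂ (X →L[ℂ] X)
  obtain ⟨T, hT, hm⟩ := (isCompact_sphere (0 : X →L[ℂ] X) 1).exists_isMinOn
    ⟨ContinuousLinearMap.id ℂ X, by simp⟩ nr_lip.continuous.continuousOn
  obtain ⟨x, hx, hM⟩ := (isCompact_sphere (0 : X) 1).exists_isMaxOn
    (Set.nonempty_coe_sort.1 (NormedSpace.sphere_nonempty_rclike ℂ zero_le_one))
    (f := fun x => ‖T x‖) (by fun_prop)
  rw [mem_sphere_zero_iff_norm] at hT hx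
  have h1 : ‖T x‖ = 1 := by
    refine le_antisymm (by simpa [hT, hx] using T.le_opNorm x) ?_
    rw [← hT]
    exact ContinuousLinearMap.opNorm_le_of_unit_norm (norm_nonneg _) fun y hy =>
      hM (mem_sphere_zero_iff_norm.2 hy)
  refine (h T x hx h1).trans_le (le_csInf ⟨_, T, hT, rfl⟩ ?_)
  rintro _ ⟨S, hS, rfl⟩
  exact hm (mem_sphere_zero_iff_norm.2 hS)

end general

section plane

variable {p : ℝ≥0∞} [Fact (1 ≤ p)]

/-- The plane with the `p`-norm. -/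
abbrev E (p : ℝ≥0∞) := PiLp p fun _ : Fin 2 => ℂ

lemma norm_eq_one (hp : 0 < p.toReal) (x : E p) :
    ‖x‖ = 1 ↔ ‖x 0‖ ^ p.toReal + ‖x 1‖ ^ p.toReal = 1 := by
  rw [PiLp.norm_eq_sum hp, Fin.sum_univ_two]
  refine ⟨fun h => ?_, fun h => by rw [h, Real.one_rpow]⟩
  have := congrArg (· ^ p.toReal) h
  simp only [one_div, Real.one_rpow] at this
  rwa [Real.rpow_inv_rpow (by positivity) hp.ne'] at this

/-- The matrix of an operator. -/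
noncomputable def mat (T : E p →L[ℂ] E p) : ℂ × ℂ × ℂ × ℂ :=
  (T (PiLp.single p 0 1) 0, T (PiLp.single p 1 1) 0, T (PiLp.single p 0 1) 1,
    T (PiLp.single p 1 1) 1)

lemma form_mat (T : E p →L[ℂ] E p) (x : E p) (W₁ W₂ : ℂ) :
    form (mat T) W₁ W₂ (x 0) (x 1) = W₁ * T x 0 + W₂ * T x 1 := by
  have : x = x 0 • PiLp.single p 0 1 + x 1 • PiLp.single p 1 1 := by
    ext i; fin_cases i <;> simp
  conv_rhs => rw [this]
  simp [form, mat, mul_comm]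

lemma rad (hp : 1 < p.toReal) (T : E p →L[ℂ] E p) :
    Rad p.toReal⁻¹ (1 - p.toReal⁻¹) (mat T) (nr T) := by
  have p0 : 0 < p.toReal := one_pos.trans hp
  have ha : 0 < p.toReal⁻¹ := inv_pos.2 p0
  have hb : 0 < 1 - p.toReal⁻¹ := sub_pos.2 (inv_lt_one_of_one_lt₀ hp)
  obtain ⟨a, ea⟩ : ∃ a, a = p.toReal⁻¹ := ⟨_, rfl⟩
  obtain ⟨b, eb⟩ : ∃ b, b = 1 - p.toReal⁻¹ := ⟨_, rfl⟩
  have hab : a + b = 1 := by rw [ea, eb]; ring
  have e1 : ∀ s : ℝ, 0 ≤ s → (s ^ a) ^ p.toReal = s := fun s hs => by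
    rw [ea, Real.rpow_inv_rpow hs p0.ne']
  have e2 : ∀ s : ℝ, 0 ≤ s → (s ^ p.toReal) ^ a = s := fun s hs => by
    rw [ea, Real.rpow_rpow_inv hs p0.ne']
  rw [← eb] at hb ⊢
  rw [← ea] at ha ⊢
  intro ρ₁ ρ₂ U₁ U₂ W₁ W₂ z r₁ r₂ hz u₁ u₂ w₁ w₂ c₁ c₂
  rcases (add_nonneg r₁ r₂).eq_or_lt with h0 | h0
  · obtain rfl : ρ₁ = 0 := by linarith
    obtain rfl : ρ₂ = 0 := by linarith
    rw [Real.zero_rpow hb.ne', norm_eq_zero] at w₁ w₂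
    simp [form, w₁, w₂]
  obtain ⟨R, hR⟩ : ∃ R, R = ρ₁ + ρ₂ := ⟨_, rfl⟩
  rw [← hR] at h0 ⊢
  have Ra := Real.rpow_pos_of_pos h0 a
  have Rb := Real.rpow_pos_of_pos h0 b
  have RR : ((R ^ a : ℝ) : ℂ) * (R ^ b : ℝ) = R := by
    rw [← ofReal_mul, ← Real.rpow_add h0, hab, Real.rpow_one]
  have z0 : z ≠ 0 := norm_pos_iff.1 (hz ▸ one_pos)
  have Rac : ((R ^ a : ℝ) : ℂ) ≠ 0 := by exact_mod_cast Ra.ne'
  have Rbc : ((R ^ b : ℝ) : ℂ) ≠ 0 := by exact_mod_cast Rb.ne'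
  have nd : ∀ {U : ℂ} {ρ c : ℝ}, 0 ≤ ρ → ‖U‖ = ρ ^ c → ‖U / (R ^ c : ℝ)‖ = (ρ / R) ^ c :=
    fun {U ρ c} hρ h => by
      rw [norm_div, h, norm_real, Real.norm_of_nonneg (by positivity), Real.div_rpow hρ h0.le]
  have s1 : ρ₁ / R + ρ₂ / R = 1 := by rw [← add_div, ← hR, div_self h0.ne']
  let x : E p := WithLp.toLp p ![U₁ / (R ^ a : ℝ), U₂ / (R ^ a : ℝ)]
  let f : E p →L[ℂ] ℂ := (W₁ / (R ^ b : ℝ) / z) • PiLp.proj p (fun _ : Fin 2 => ℂ) 0 +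
    (W₂ / (R ^ b : ℝ) / z) • PiLp.proj p (fun _ : Fin 2 => ℂ) 1
  have hf : ∀ y : E p, f y = W₁ / (R ^ b : ℝ) / z * y 0 + W₂ / (R ^ b : ℝ) / z * y 1 :=
    fun y => rfl
  have x0 : x 0 = U₁ / (R ^ a : ℝ) := rfl
  have x1 : x 1 = U₂ / (R ^ a : ℝ) := rfl
  have hx : ‖x‖ = 1 := by
    rw [norm_eq_one p0, x0, x1, nd r₁ u₁, nd r₂ u₂, e1 _ (by positivity), e1 _ (by positivity), s1]
  have hfx : f x = 1 := by
    rw [hf, x0, x1]
    field_simp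
    rw [mul_assoc, mul_comm _ ((R ^ a : ℝ) : ℂ)]
    have : (R : ℂ) = ρ₁ + ρ₂ := by exact_mod_cast hR
    linear_combination c₁ + c₂ - z * RR - z * this
  have hf1 : ‖f‖ = 1 := by
    refine le_antisymm (ContinuousLinearMap.opNorm_le_of_unit_norm zero_le_one fun y hy => ?_) ?_
    · rw [norm_eq_one p0] at hy
      rw [hf]
      refine (norm_add_le _ _).trans ?_
      rw [norm_mul, norm_mul, norm_div _ z, norm_div _ z, hz, nd r₁ w₁, nd r₂ w₂, div_one, div_one]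
      have k₁ := Real.geom_mean_le_arith_mean2_weighted ha.le hb.le
        (by positivity : 0 ≤ ‖y 0‖ ^ p.toReal) (by positivity : 0 ≤ ρ₁ / R) hab
      have k₂ := Real.geom_mean_le_arith_mean2_weighted ha.le hb.le
        (by positivity : 0 ≤ ‖y 1‖ ^ p.toReal) (by positivity : 0 ≤ ρ₂ / R) hab
      rw [e2 _ (norm_nonneg _), mul_comm] at k₁ k₂
      have : a * ‖y 0‖ ^ p.toReal + b * (ρ₁ / R) + (a * ‖y 1‖ ^ p.toReal + b * (ρ₂ / R)) = 1 := by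
        linear_combination a * hy + b * s1 + hab
      linarith
    · simpa [hfx, hx] using f.le_opNorm x
  have k := le_nr T hx hf1 hfx
  have e : form (mat T) W₁ W₂ U₁ U₂ = R * z * f (T x) := by
    rw [hf, ← form_mat, x0, x1, ← RR]
    unfold form
    field_simp
  rw [e, norm_mul, norm_mul, hz, mul_one, norm_real, Real.norm_of_nonneg h0.le, mul_comm]
  exact mul_le_mul_of_nonneg_right k h0.le

theorem main (h1 : 1 < p) (h2 : p ≠ ⊤) (h3 : p ≠ 2) : 1 / 2 < ni (E p) := by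
  have hp : 1 < p.toReal := by
    rwa [← ENNReal.toReal_one, ENNReal.toReal_lt_toReal ENNReal.one_ne_top h2]
  have p0 : 0 < p.toReal := one_pos.trans hp
  have ha : 0 < p.toReal⁻¹ := inv_pos.2 p0
  have hb : 0 < 1 - p.toReal⁻¹ := sub_pos.2 (inv_lt_one_of_one_lt₀ hp)
  have hne : p.toReal⁻¹ ≠ 1 - p.toReal⁻¹ := fun h => h3 (by
    have : p.toReal = (2 : ℝ≥0∞).toReal := by
      rw [ENNReal.toReal_ofNat, ← inv_inj]; linarith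
    exact (ENNReal.toReal_eq_toReal_iff' h2 (by simp)).1 this)
  refine lt_ni fun T x hx hT => ?_
  rw [norm_eq_one p0] at hx hT
  have dual : ∀ y : ℂ, ‖((‖y‖ ^ p.toReal : ℝ) : ℂ) / y‖ = (‖y‖ ^ p.toReal) ^ (1 - p.toReal⁻¹) ∧
      ((‖y‖ ^ p.toReal : ℝ) : ℂ) / y * y = (‖y‖ ^ p.toReal : ℝ) := fun y => by
    by_cases hy : y = 0
    · simp [hy, p0.ne', hb.ne']
    · refine ⟨?_, div_mul_cancel₀ _ hy⟩
      have := norm_pos_iff.2 hy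
      rw [norm_div, norm_real, Real.norm_of_nonneg (by positivity),
        Real.rpow_sub (by positivity), Real.rpow_one, Real.rpow_rpow_inv this.le p0.ne']
  have key : ∀ v, 0 < v → nr T ≤ v → 1 < 2 * v := fun v hv hle => by
    have := strict ha hb (by ring) hne hv (t := mat T)
      (fun ρ₁ ρ₂ U₁ U₂ W₁ W₂ z r₁ r₂ hz u₁ u₂ w₁ w₂ c₁ c₂ =>
        (rad hp T ρ₁ ρ₂ U₁ U₂ W₁ W₂ z r₁ r₂ hz u₁ u₂ w₁ w₂ c₁ c₂).trans
          (mul_le_mul_of_nonneg_right hle (add_nonneg r₁ r₂)))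
      (by positivity) (by positivity) (by positivity) (by positivity) hx hT
      (Real.rpow_rpow_inv (norm_nonneg (x 0)) p0.ne').symm
      (Real.rpow_rpow_inv (norm_nonneg (x 1)) p0.ne').symm (dual (T x 0)).1 (dual (T x 1)).1
    rwa [form_mat, (dual _).2, (dual _).2, ← ofReal_add, hT, ofReal_one, norm_one] at this
  rcases (nr_nonneg T).eq_or_lt with h | h
  · linarith [key (1 / 2) (by norm_num) (by linarith)]
  · linarith [key _ h le_rfl]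

end plane

end Pool.Agent.P.MP_c5b4b2_an.H
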