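import Pool.Agent.P.MP_c5b4b2_an.H.Main
import Pool.Agent.P.MP_c5b4b2_an.H.Asy

/-! The asymptotics of the numerical index of the complex plane for large `p`. -/

set_option linter.unusedSectionVars false

namespace Pool.Agent.P.MP_c5b4b2_an.H

open Set Complex All Filter Topology
open scoped ComplexConjugate ENNReal

variable {P v : ℝ} {a b c d : ℂ}

lemma Rad.swap {α β : ℝ} (h : Rad α β (a, b, c, d) v) : Rad α β (d, c, b, a) v := by
  intro ρ₁ ρ₂ U₁ U₂ W₁ W₂ z r₁ r₂ hz u₁ u₂ w₁ w₂ c₁ c₂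
  have := h ρ₂ ρ₁ U₂ U₁ W₂ W₁ z r₂ r₁ hz u₂ u₁ w₂ w₁ c₂ c₁
  rw [add_comm ρ₁]
  refine le_of_eq_of_le (congrArg norm ?_) this
  simp only [form]
  ring

lemma row (hP : 0 < P) (h : Rad P⁻¹ (1 - P⁻¹) (a, b, c, d) v) {t : ℝ} (t0 : 0 < t) (t1 : t ≤ 1) :
    ‖a‖ + ‖b‖ * t - (‖c‖ + ‖d‖) * (t ^ P / t) ≤ v * (1 + t ^ P) := by
  obtain ⟨c₁, n₁, e₁⟩ := exists_norm_eq_mul_self a
  obtain ⟨c₂, n₂, e₂⟩ := exists_norm_eq_mul_self b
  have c0 : c₁ ≠ 0 := norm_pos_iff.1 (n₁ ▸ one_pos)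
  obtain ⟨z, hz⟩ : ∃ z, z = c₂ / c₁ := ⟨_, rfl⟩
  have z1 : ‖z‖ = 1 := by rw [hz, norm_div, n₁, n₂, div_one]
  have z0 : z ≠ 0 := norm_pos_iff.1 (z1 ▸ one_pos)
  have tc : (t : ℂ) ≠ 0 := by exact_mod_cast t0.ne'
  have tP := Real.rpow_pos_of_pos t0 P
  have u : ‖z * t‖ = t := by rw [norm_mul, z1, one_mul, norm_real, Real.norm_of_nonneg t0.le]
  have w : ‖((t ^ P : ℝ) : ℂ) / (z * t)‖ = t ^ P / t := by
    rw [norm_div, u, norm_real, Real.norm_of_nonneg tP.le]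
  have k := h 1 (t ^ P) 1 (z * t) 1 (((t ^ P : ℝ) : ℂ) / (z * t)) 1 zero_le_one tP.le norm_one
    (by simp) (by rw [u, Real.rpow_rpow_inv t0.le hP.ne']) (by simp)
    (by rw [w, Real.rpow_sub tP, Real.rpow_one, Real.rpow_rpow_inv t0.le hP.ne']) (by simp)
    (by field_simp)
  refine le_trans ?_ k
  have k1 : ‖a * 1 + b * (z * t)‖ = ‖a‖ + ‖b‖ * t := by
    have : c₁ * (a * 1 + b * (z * t)) = ((‖a‖ + ‖b‖ * t : ℝ) : ℂ) := by
      push_cast
      rw [e₁, e₂, hz]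
      field_simp
    have k := congrArg norm this
    rwa [norm_mul, n₁, one_mul, norm_real, Real.norm_of_nonneg (by positivity)] at k
  have k2 : ‖c * 1 + d * (z * t)‖ ≤ ‖c‖ + ‖d‖ := by
    refine (norm_add_le _ _).trans ?_
    rw [mul_one, norm_mul, u]
    nlinarith [norm_nonneg d]
  have k3 := norm_sub_norm_le (a * 1 + b * (z * t))
    (-(((t ^ P : ℝ) : ℂ) / (z * t) * (c * 1 + d * (z * t))))
  rw [sub_neg_eq_add, norm_neg, norm_mul, w, k1] at k3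
  simp only [form, one_mul]
  nlinarith [mul_le_mul_of_nonneg_left k2 (div_pos tP t0).le]

lemma conv (hP : 1 < P) {γ δ X Y : ℝ} (γ0 : 0 ≤ γ) (δ0 : 0 ≤ δ) (X0 : 0 ≤ X) (Y0 : 0 ≤ Y) :
    (γ * X + δ * Y) ^ P ≤ (γ + δ) ^ (P - 1) * (γ * X ^ P + δ * Y ^ P) := by
  rcases (add_nonneg γ0 δ0).eq_or_lt with h | h
  · obtain rfl : γ = 0 := by linarith
    obtain rfl : δ = 0 := by linarith
    simp [(one_pos.trans hP).ne']
  · have k := (convexOn_rpow hP.le).2 X0 Y0 (div_nonneg γ0 h.le) (div_nonneg δ0 h.le)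
      (by rw [← add_div, div_self h.ne'])
    simp only [smul_eq_mul] at k
    have e : γ * X + δ * Y = (γ + δ) * (γ / (γ + δ) * X + δ / (γ + δ) * Y) := by field_simp
    rw [e, Real.mul_rpow h.le (by positivity), Real.rpow_sub_one h.ne']
    refine (mul_le_mul_of_nonneg_left k (by positivity)).trans_eq ?_
    field_simp

lemma low {κ : ℝ} (hκ : 0 < κ) (hκ1 : κ ≤ 1) : ∀ᶠ P : ℝ in atTop, ∀ (v : ℝ) (a b c d x y : ℂ),
    0 ≤ v → Rad P⁻¹ (1 - P⁻¹) (a, b, c, d) v → ‖x‖ ^ P + ‖y‖ ^ P = 1 →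
    ‖a * x + b * y‖ ^ P + ‖c * x + d * y‖ ^ P = 1 →
    1 ≤ (1 + κ) ^ 2 * (2 * Real.exp 1 * P) * v ^ P := by
  filter_upwards [low_core hκ hκ1, eventually_gt_atTop 1] with P H hP v a b c d x y hv hR hx hy
  wlog hle : ‖c‖ + ‖d‖ ≤ ‖a‖ + ‖b‖ generalizing a b c d x y
  · exact this d c b a y x hR.swap (by linarith)
      (by rw [add_comm (d * y), add_comm (b * y)]; linarith) (by linarith)
  have P0 : 0 < P := one_pos.trans hP
  have nn : ∀ a b : ℂ, ‖a * x + b * y‖ ≤ ‖a‖ * ‖x‖ + ‖b‖ * ‖y‖ := fun a b => by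
    simpa using norm_add_le (a * x) (b * y)
  obtain ⟨R, hR0⟩ : ∃ R, R = ‖a‖ + ‖b‖ := ⟨_, rfl⟩
  have R0 : 0 < R := by
    refine (hR0 ▸ add_nonneg (norm_nonneg a) (norm_nonneg b) : 0 ≤ R).lt_of_ne fun h => ?_
    have z : ∀ u w : ℂ, ‖u‖ + ‖w‖ ≤ 0 → u = 0 ∧ w = 0 := fun u w k =>
      ⟨norm_le_zero_iff.1 (by linarith [norm_nonneg w]),
        norm_le_zero_iff.1 (by linarith [norm_nonneg u])⟩
    obtain ⟨rfl, rfl⟩ := z a b (by linarith)
    obtain ⟨rfl, rfl⟩ := z c d (by linarith)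
    simp [P0.ne'] at hy
  have RP := Real.rpow_pos_of_pos R0 P
  obtain ⟨t, ht⟩ : ∃ t, t = (2 * P) ^ (-P⁻¹) := ⟨_, rfl⟩
  have t0 : 0 < t := by rw [ht]; positivity
  have t1 : t ≤ 1 := ht ▸ Real.rpow_le_one_of_one_le_of_nonpos (by linarith)
    (neg_nonpos.2 (inv_pos.2 P0).le)
  have tp : t ^ P = (2 * P)⁻¹ := by rw [ht, tau_pow P0 (by positivity)]
  have r₁ := row P0 hR t0 t1
  have r₂ := row P0 hR.swap t0 t1
  rw [tp] at r₁ r₂
  have ε0 : 0 < (2 * P)⁻¹ / t := by positivity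
  have eb : 1 - ‖a‖ / R = ‖b‖ / R := by field_simp; linarith
  have hr : ‖c‖ / R + ‖d‖ / R ≤ 1 := by rw [← add_div, div_le_one R0]; linarith
  have k := H (‖a‖ / R) (‖c‖ / R) (‖d‖ / R) (v / R) (R ^ P)⁻¹ t ht (by positivity)
    (by rw [div_le_one R0]; linarith [norm_nonneg b]) (by positivity) (by positivity) hr
    (by
      rw [eb, div_mul_eq_mul_div v, le_div_iff₀ R0]
      refine le_trans ?_ r₁
      have : (‖a‖ / R + ‖b‖ / R * t - (2 * P)⁻¹ / t) * R =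
          ‖a‖ + ‖b‖ * t - R * ((2 * P)⁻¹ / t) := by field_simp
      rw [this]
      nlinarith)
    (by
      rw [div_mul_eq_mul_div v, le_div_iff₀ R0]
      refine le_trans (le_of_eq ?_) r₂
      rw [add_comm ‖b‖, ← hR0]
      field_simp)
    (by
      have sc : ∀ u w : ℂ, ‖u * x + w * y‖ ^ P ≤ R ^ P * ((‖u‖ / R + ‖w‖ / R) ^ (P - 1) *
          (‖u‖ / R * ‖x‖ ^ P + ‖w‖ / R * ‖y‖ ^ P)) := fun u w => by
        refine le_trans ?_ (mul_le_mul_of_nonneg_left (conv hP (by positivity) (by positivity)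
          (norm_nonneg x) (norm_nonneg y)) RP.le)
        rw [← Real.mul_rpow R0.le (by positivity)]
        refine Real.rpow_le_rpow (norm_nonneg _) ((nn u w).trans_eq ?_) P0.le
        field_simp
      have s₁ := sc a b
      rw [← eb, add_sub_cancel, Real.one_rpow, one_mul] at s₁
      have s := add_le_add s₁ (sc c d)
      rw [hy, ← mul_add, ← inv_mul_le_iff₀ RP, mul_one] at s
      have rr : (‖c‖ / R + ‖d‖ / R) ^ (P - 1) ≤ 1 :=
        Real.rpow_le_one (by positivity) hr (by linarith)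
      have r0 : 0 ≤ (‖c‖ / R + ‖d‖ / R) ^ (P - 1) := by positivity
      have g1 : ‖c‖ / R ≤ 1 := by linarith [div_nonneg (norm_nonneg d) R0.le]
      have g2 : (‖c‖ / R + ‖d‖ / R) ^ (P - 1) * (‖c‖ / R) ≤ 1 :=
        mul_le_one₀ rr (by positivity) g1
      have x0 : 0 ≤ ‖x‖ ^ P := by positivity
      have y0 : 0 ≤ ‖y‖ ^ P := by positivity
      have a0 : 0 ≤ ‖a‖ / R := by positivity
      rw [← le_max_iff]
      have m₁ := le_max_left (1 + ‖a‖ / R) (1 + (‖c‖ / R + ‖d‖ / R) ^ (P - 1) * (‖d‖ / R))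
      have m₂ := le_max_right (1 + ‖a‖ / R) (1 + (‖c‖ / R + ‖d‖ / R) ^ (P - 1) * (‖d‖ / R))
      generalize max (1 + ‖a‖ / R) (1 + (‖c‖ / R + ‖d‖ / R) ^ (P - 1) * (‖d‖ / R)) = m at *
      have : m = m * ‖x‖ ^ P + m * ‖y‖ ^ P := by rw [← mul_add, hx, mul_one]
      nlinarith [mul_le_mul_of_nonneg_right m₁ x0, mul_le_mul_of_nonneg_right m₂ y0,
        mul_le_mul_of_nonneg_right g2 x0, mul_nonneg a0 y0])
  rw [Real.div_rpow hv R0.le, ← mul_div_assoc, le_div_iff₀ RP, inv_mul_cancel₀ RP.ne'] at k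
  exact k

variable {p : ℝ≥0∞} [Fact (1 ≤ p)]

lemma apply_mat (T : E p →L[ℂ] E p) (x : E p) :
    T x 0 = (mat T).1 * x 0 + (mat T).2.1 * x 1 ∧
      T x 1 = (mat T).2.2.1 * x 0 + (mat T).2.2.2 * x 1 :=
  ⟨by simpa [form] using (form_mat T x 1 0).symm, by simpa [form] using (form_mat T x 0 1).symm⟩

lemma ni_low {κ : ℝ} (hκ : 0 < κ) (hκ1 : κ ≤ 1) : ∀ᶠ P : ℝ in atTop, ∀ (p : ℝ≥0∞) [Fact (1 ≤ p)],
    p.toReal = P → ((1 + κ) ^ 2 * (2 * Real.exp 1 * P)) ^ (-P⁻¹) ≤ ni (E p) := by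
  filter_upwards [low hκ hκ1, eventually_gt_atTop 1] with P H hP p _ hp
  subst hp
  have P0 : 0 < p.toReal := one_pos.trans hP
  refine le_of_forall_lt fun c hc => lt_ni fun T x hx hT => hc.trans_le ?_
  rw [norm_eq_one P0] at hx hT
  rw [(apply_mat T x).1, (apply_mat T x).2] at hT
  have k := H _ _ _ _ _ _ _ (nr_nonneg T) (rad hP T) hx hT
  rw [← Real.rpow_le_rpow_iff (by positivity) (nr_nonneg T) P0, tau_pow P0 (by positivity),
    inv_le_iff_one_le_mul₀' (by positivity)]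
  exact k

lemma norm_pow (hp : 0 < p.toReal) (x : E p) :
    ‖x‖ ^ p.toReal = ‖x 0‖ ^ p.toReal + ‖x 1‖ ^ p.toReal := by
  rw [PiLp.norm_eq_sum hp, Fin.sum_univ_two, one_div, Real.rpow_inv_rpow (by positivity) hp.ne']

lemma norming (hp : 1 < p.toReal) {x : E p} {f : E p →L[ℂ] ℂ} (hx : ‖x‖ = 1) (hf : ‖f‖ = 1)
    (h : f x = 1) : ∃ f₀ f₁ : ℂ, (∀ y : E p, f y = y 0 * f₀ + y 1 * f₁) ∧
      x 0 * f₀ = (‖x 0‖ ^ p.toReal : ℝ) ∧ x 1 * f₁ = (‖x 1‖ ^ p.toReal : ℝ) ∧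
      ‖f₀‖ = (‖x 0‖ ^ p.toReal) ^ (1 - p.toReal⁻¹) := by
  have P0 : 0 < p.toReal := one_pos.trans hp
  have hq := Real.HolderConjugate.conjExponent hp
  have e : ∀ y : E p, f y = y 0 * f (PiLp.single p 0 1) + y 1 * f (PiLp.single p 1 1) := by
    intro y
    have : y = y 0 • PiLp.single p 0 1 + y 1 • PiLp.single p 1 1 := by
      ext i; fin_cases i <;> simp
    conv_lhs => rw [this]
    simp
  rw [norm_eq_one P0] at hx
  obtain ⟨σ, s1, s2⟩ := exists_norm_mul_eq_self (x 1)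
  rw [e] at h
  have k := holder_eq hq (a := f (PiLp.single p 0 1)) (b := σ * f (PiLp.single p 1 1)) (x := x 0)
    (norm_nonneg (x 1)) (fun c l => by
      have k1 := f.le_opNorm (WithLp.toLp p ![c, l * σ])
      rw [hf, one_mul, e] at k1
      have k2 := Real.rpow_le_rpow (norm_nonneg _) k1 P0.le
      rw [norm_pow P0] at k2
      simpa [s1, mul_assoc] using k2) hx (by linear_combination h + f (PiLp.single p 1 1) * s2)
  refine ⟨_, _, e, k.1, ?_, ?_⟩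
  · have : ((‖x 0‖ ^ p.toReal : ℝ) : ℂ) + (‖x 1‖ ^ p.toReal : ℝ) = 1 := by exact_mod_cast hx
    linear_combination h - k.1 - this
  · rw [← k.2, hq.one_sub_inv, Real.rpow_rpow_inv (norm_nonneg _) hq.symm.ne_zero]

lemma ni_up {κ d : ℝ} (hκ : 0 < κ) (d0 : 0 < d) (d1 : d < 1) : ∀ᶠ P : ℝ in atTop,
    ∀ (p : ℝ≥0∞) [Fact (1 ≤ p)], p.toReal = P → 0 ≤ ni (E p) →
      P * ni (E p) ^ P ≤ (1 + κ) ^ 3 / ((1 + d) * Real.exp 1) := by
  obtain ⟨α, hα⟩ : ∃ α, α = 4 / (1 - d) := ⟨_, rfl⟩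
  have α0 : 0 < α := by rw [hα]; exact div_pos four_pos (by linarith)
  have T1 : Tendsto (fun P : ℝ => (κ⁻¹) ^ (-P⁻¹)) atTop (𝓝 1) := by
    have := (Real.continuousAt_const_rpow (a := κ⁻¹) (b := -0) (inv_pos.2 hκ).ne').tendsto.comp
      tendsto_inv_atTop_zero.neg
    simpa [Function.comp_def] using this
  have T2 : Tendsto (fun P : ℝ => Real.exp (α * (κ⁻¹) ^ (-P⁻¹) /
      (1 + α * (κ⁻¹) ^ (-P⁻¹) * P⁻¹))) atTop (𝓝 (Real.exp α)) := by
    have := (Real.continuous_exp.tendsto _).comp ((T1.const_mul α).div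
      (((T1.const_mul α).mul tendsto_inv_atTop_zero).const_add 1) (by norm_num))
    simpa [Function.comp_def] using this
  have k0 : Real.exp α / (1 + κ) < Real.exp α := div_lt_self (Real.exp_pos α) (by linarith)
  filter_upwards [up_core hκ d0 d1 hα.ge, eventually_gt_atTop 1, T2.eventually (lt_mem_nhds k0)]
    with P H hP hu p _ hp n0
  subst hp
  have P0 : 0 < p.toReal := one_pos.trans hP
  obtain ⟨u, eu⟩ : ∃ u, u = (κ⁻¹) ^ (-p.toReal⁻¹) := ⟨_, rfl⟩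
  have u0 : 0 < u := by rw [eu]; positivity
  have up : u ^ p.toReal = κ := by rw [eu, tau_pow P0 (inv_pos.2 hκ), inv_inv]
  rw [← eu] at hu
  let T : E p →L[ℂ] E p :=
    (((α / p.toReal : ℝ) : ℂ) • PiLp.proj p (fun _ : Fin 2 => ℂ) 0 +
      PiLp.proj p (fun _ : Fin 2 => ℂ) 1).smulRight (PiLp.single p 0 1) +
    (((-d : ℝ) : ℂ) • PiLp.proj p (fun _ : Fin 2 => ℂ) 1).smulRight (PiLp.single p 1 1)
  have T0 : ∀ x : E p, T x 0 = (α / p.toReal : ℝ) * x 0 + x 1 := fun x => by simp [T]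
  have T1 : ∀ x : E p, T x 1 = (-d : ℝ) * x 1 := fun x => by simp [T]
  have y0 : 0 < 1 + α * u * p.toReal⁻¹ := by positivity
  have hN : Real.exp α / (1 + κ) ≤ ‖T‖ ^ p.toReal * (1 + κ) := by
    have k1 := Real.rpow_le_rpow (norm_nonneg _) (T.le_opNorm (WithLp.toLp p ![u, 1])) P0.le
    rw [Real.mul_rpow (norm_nonneg _) (norm_nonneg _), norm_pow P0, norm_pow P0, T0] at k1
    have e1 : ((α / p.toReal : ℝ) : ℂ) * (WithLp.toLp p ![(u : ℂ), 1] : E p) 0 +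
        (WithLp.toLp p ![(u : ℂ), 1] : E p) 1 = ((1 + α * u * p.toReal⁻¹ : ℝ) : ℂ) := by
      simp only [Matrix.cons_val_zero, Matrix.cons_val_one]
      push_cast
      ring
    have e2 : ‖(WithLp.toLp p ![(u : ℂ), 1] : E p) 0‖ ^ p.toReal +
        ‖(WithLp.toLp p ![(u : ℂ), 1] : E p) 1‖ ^ p.toReal = 1 + κ := by
      simp [abs_of_pos u0, up, add_comm]
    rw [e1, e2, norm_real, Real.norm_of_nonneg y0.le] at k1
    refine hu.le.trans (le_trans ?_ ((le_add_of_nonneg_right (by positivity)).trans k1))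
    rw [Real.rpow_def_of_pos y0, Real.exp_le_exp]
    refine le_trans (le_of_eq ?_)
      (mul_le_mul_of_nonneg_right (Real.one_sub_inv_le_log_of_pos y0) P0.le)
    rw [div_eq_mul_inv]
    linear_combination p.toReal * mul_inv_cancel₀ y0.ne' -
      (α * u * (1 + α * u * p.toReal⁻¹)⁻¹) * mul_inv_cancel₀ P0.ne'
  have N0 : 0 < ‖T‖ ^ p.toReal :=
    (mul_pos_iff_of_pos_right (by positivity)).1
      ((by positivity : 0 < Real.exp α / (1 + κ)).trans_le hN)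
  have N1 : 0 < ‖T‖ := (norm_nonneg T).lt_of_ne fun h => by
    rw [← h, Real.zero_rpow P0.ne'] at N0
    exact lt_irrefl _ N0
  have k := ni_le T (c := ((1 + d) / ((1 + κ) * Real.exp (α - 1)) * p.toReal) ^ (-p.toReal⁻¹))
    (by positivity) N1 fun x f hx hf hfx => by
      obtain ⟨f₀, f₁, e, e₀, e₁, e₂⟩ := norming hP hx hf hfx
      rw [norm_eq_one P0] at hx
      have x0 : 0 ≤ ‖x 0‖ ^ p.toReal := by positivity
      refine le_trans ?_ (H (‖x 1‖ ^ p.toReal) (by positivity) (by linarith))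
      have e3 : f (T x) = ((α / p.toReal * ‖x 0‖ ^ p.toReal - d * ‖x 1‖ ^ p.toReal : ℝ) : ℂ) +
          f₀ * x 1 := by
        rw [e, T0, T1, ofReal_sub, ofReal_mul, ofReal_mul, ← e₀, ← e₁, ofReal_neg]
        ring
      rw [e3, ← eq_sub_of_add_eq hx, Real.rpow_rpow_inv (norm_nonneg _) P0.ne', ← e₂]
      refine (norm_add_le _ _).trans_eq ?_
      rw [norm_real, norm_mul, Real.norm_eq_abs]
  have k2 := Real.rpow_le_rpow n0 k P0.le
  rw [Real.div_rpow (by positivity) N1.le, tau_pow P0 (by positivity), le_div_iff₀ N0] at k2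
  rw [div_le_iff₀ (by positivity)] at hN
  have e4 : Real.exp α = Real.exp (α - 1) * Real.exp 1 := by rw [← Real.exp_add]; congr 1; ring
  have k3 : p.toReal * ni (E p) ^ p.toReal * ((1 + d) * ‖T‖ ^ p.toReal) ≤
      (1 + κ) * Real.exp (α - 1) := by
    rw [mul_inv, inv_div, ← div_eq_mul_inv, le_div_iff₀ P0, le_div_iff₀ (by positivity)] at k2
    linarith
  rw [le_div_iff₀ (by positivity)]
  refine le_of_mul_le_mul_right ?_ (Real.exp_pos (α - 1))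
  have n1 : 0 ≤ p.toReal * ni (E p) ^ p.toReal * (1 + d) := by positivity
  nlinarith [mul_le_mul_of_nonneg_left hN n1,
    mul_le_mul_of_nonneg_left k3 (sq_nonneg (1 + κ))]

theorem rate {ε : ℝ} (hε : 0 < ε) : ∃ B : ℝ, ∀ (p : ℝ≥0∞) [Fact (1 ≤ p)], B ≤ p.toReal →
    |p.toReal * ni (E p) ^ p.toReal - 1 / (2 * Real.exp 1)| ≤ ε := by
  have e0 := Real.exp_pos 1
  have c1 : ContinuousAt (fun κ : ℝ => (1 + κ) ^ 3 / ((1 + (1 - κ)) * Real.exp 1)) 0 :=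
    ContinuousAt.div (by fun_prop) (by fun_prop) (by positivity)
  have c2 : ContinuousAt (fun κ : ℝ => ((1 + κ) ^ 2 * (2 * Real.exp 1))⁻¹) 0 :=
    ContinuousAt.inv₀ (by fun_prop) (by positivity)
  have h1 := c1.eventually (gt_mem_nhds (a := 1 / (2 * Real.exp 1) + ε) (by norm_num; exact hε))
  have h2 := c2.eventually (lt_mem_nhds (a := 1 / (2 * Real.exp 1) - ε) (by norm_num; exact hε))
  obtain ⟨κ, ⟨⟨k1, k2⟩, κ1⟩, κ0⟩ := ((((h1.and h2).and (gt_mem_nhds one_pos)).filter_mono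
    nhdsWithin_le_nhds).and (self_mem_nhdsWithin (s := Ioi 0))).exists
  obtain ⟨B, hB⟩ := eventually_atTop.1 ((ni_low κ0 κ1.le).and
    ((ni_up κ0 (d := 1 - κ) (by linarith) (by linarith)).and (eventually_gt_atTop 0)))
  refine ⟨B, fun p _ hp => ?_⟩
  obtain ⟨l, u, P0⟩ := hB _ hp
  have l1 := l p rfl
  have u1 := u p rfl (le_trans (by positivity) l1)
  have l2 := Real.rpow_le_rpow (by positivity) l1 P0.le
  rw [tau_pow P0 (by positivity), ← mul_assoc, mul_inv, mul_inv_le_iff₀' P0] at l2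
  rw [abs_le]
  constructor <;> linarith

end Pool.Agent.P.MP_c5b4b2_an.H
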