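import Mathlib

/-! Real inequalities for the lower bound on the numerical index of the complex plane. -/

namespace Pool.Agent.P.MP_c5b4b2_an.H

open Real Set

/-- The profile function. -/
noncomputable def J (n : ℝ) : ℝ := -2 * n * (n * log n) / (1 - n ^ 2)

lemma neg_log_le {r : ℝ} (h0 : 0 < r) (h1 : r ≤ 1) : -(2 * r * log r) ≤ 1 - r ^ 2 := by
  have h := Real.self_le_sinh_iff.2 (neg_nonneg.2 (log_nonpos h0.le h1))
  rw [sinh_eq, neg_neg, exp_neg, exp_log h0] at h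
  have h2 := mul_le_mul_of_nonneg_left h h0.le
  have h3 : r * ((r⁻¹ - r) / 2) = (1 - r ^ 2) / 2 := by field_simp
  linarith

lemma J_deriv {n : ℝ} (h0 : 0 < n) (h1 : n < 1) :
    HasDerivAt J ((-4 * n * log n - 2 * n * (1 - n ^ 2)) / (1 - n ^ 2) ^ 2) n := by
  have hne : 1 - n ^ 2 ≠ 0 := by nlinarith
  have h := (((hasDerivAt_id' n).const_mul (-2)).mul (hasDerivAt_mul_log h0.ne')).div
    (((hasDerivAt_id' n).pow 2).const_sub 1) hne
  refine h.congr_deriv ?_
  simp only [Pi.pow_apply, Pi.mul_apply]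
  congr 1
  push_cast
  ring

lemma J_deriv_le {n : ℝ} (h0 : 0 < n) (h1 : n < 1) :
    0 ≤ -4 * n * log n - 2 * n * (1 - n ^ 2) ∧
      -4 * n * log n - 2 * n * (1 - n ^ 2) ≤ 5 / 4 * (1 - n ^ 2) ^ 2 := by
  constructor
  · have h := log_le_sub_one_of_pos (pow_pos h0 2)
    rw [log_pow] at h
    push_cast at h
    nlinarith
  · obtain ⟨r, hr, rfl⟩ : ∃ r, 0 < r ∧ n = r ^ 2 := ⟨√n, sqrt_pos.2 h0, (sq_sqrt h0.le).symm⟩
    have r1 : r < 1 := by nlinarith
    have h := mul_le_mul_of_nonneg_left (neg_log_le hr r1.le) hr.le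
    rw [log_pow]
    push_cast
    have k : 0 ≤ 5 / 4 * (1 + r) * (1 + r ^ 2) ^ 2 - 2 * r * (r ^ 2 + r + 2) := by
      nlinarith [sq_nonneg (r ^ 2 - 9 / 25), sq_nonneg (r - 3 / 5),
        mul_nonneg hr.le (sq_nonneg (r ^ 2 - 9 / 25)), mul_nonneg hr.le (sq_nonneg (r - 3 / 5))]
    have k2 := mul_nonneg (mul_nonneg (sub_nonneg.2 r1.le) (sub_nonneg.2 h1.le)) k
    nlinarith

lemma J_lip {m n : ℝ} (hm : m ∈ Ico (0 : ℝ) 1) (hn : n ∈ Ico (0 : ℝ) 1) :
    |J n - J m| ≤ 5 / 4 * |n - m| := by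
  have hc : ContinuousOn J (Ico 0 1) := by
    refine ContinuousOn.div (((continuous_const.mul continuous_id).mul
      continuous_mul_log).continuousOn) (by fun_prop) fun x hx => ?_
    nlinarith [hx.1, hx.2]
  have hd : DifferentiableOn ℝ J (interior (Ico 0 1)) := by
    rw [interior_Ico]
    exact fun x hx => (J_deriv hx.1 hx.2).differentiableAt.differentiableWithinAt
  have key : ∀ x ∈ Ico (0 : ℝ) 1, ∀ y ∈ Ico (0 : ℝ) 1, x ≤ y →
      |J y - J x| ≤ 5 / 4 * |y - x| := by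
    intro x hx y hy hxy
    have a1 := (convex_Ico (0 : ℝ) 1).image_sub_le_mul_sub_of_deriv_le hc hd (C := 5 / 4)
      (fun z hz => by
        rw [interior_Ico] at hz
        have : 0 < 1 - z ^ 2 := by nlinarith [hz.1, hz.2]
        rw [(J_deriv hz.1 hz.2).deriv, div_le_iff₀ (by positivity)]
        exact (J_deriv_le hz.1 hz.2).2) x hx y hy hxy
    have a2 := (convex_Ico (0 : ℝ) 1).mul_sub_le_image_sub_of_le_deriv hc hd (C := 0)
      (fun z hz => by
        rw [interior_Ico] at hz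
        rw [(J_deriv hz.1 hz.2).deriv]
        exact div_nonneg (J_deriv_le hz.1 hz.2).1 (sq_nonneg _)) x hx y hy hxy
    rw [abs_of_nonneg (by linarith), abs_of_nonneg (by linarith)]
    exact a1
  rcases le_total m n with h | h
  · exact key m hm n hn h
  · rw [abs_sub_comm, abs_sub_comm n]
    exact key n hn m hm h

lemma J_eq {P d w : ℝ} (hP : 0 ≤ P) (hd : 0 < d) (hw : 0 ≤ w) (h : w ^ 2 = P * (P + d)) :
    w / (P + d) ∈ Ico (0 : ℝ) 1 ∧ d * J (w / (P + d)) = P * (log (P + d) - log P) := by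
  have ha : 0 < P + d := by linarith
  have h2 : (w / (P + d)) ^ 2 = P / (P + d) := by rw [div_pow, h]; field_simp
  refine ⟨⟨by positivity, ?_⟩, ?_⟩
  · rw [div_lt_one ha]
    nlinarith
  · rcases hP.eq_or_lt with rfl | hP
    · have : w = 0 := by simpa using h
      simp [J, this]
    · have h3 : 2 * log (w / (P + d)) = log P - log (P + d) := by
        rw [← log_div hP.ne' ha.ne', ← h2, log_pow]; norm_num
      have h4 : J (w / (P + d)) =
          -((w / (P + d)) ^ 2 * (2 * log (w / (P + d)))) / (1 - (w / (P + d)) ^ 2) := by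
        unfold J; ring
      rw [h4, h3, h2]
      have : 1 - P / (P + d) = d / (P + d) := by field_simp; ring
      rw [this]
      field_simp
      ring

lemma cost {P Q d w₁ w₂ D : ℝ} (hP : 0 ≤ P) (hQ : 0 ≤ Q) (hd : 0 < d) (hs : P + Q + d = 1)
    (h₁ : 0 ≤ w₁) (h₂ : 0 ≤ w₂) (e₁ : w₁ ^ 2 = P * (P + d)) (e₂ : w₂ ^ 2 = Q * (Q + d))
    (hD : 2 * d * D = P * (log (P + d) - log P) - Q * (log (Q + d) - log Q)) :
    exp D + exp (-D) ≤ 2 + 15 / 32 * (w₁ - w₂) ^ 2 := by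
  obtain ⟨m1, j1⟩ := J_eq hP hd h₁ e₁
  obtain ⟨m2, j2⟩ := J_eq hQ hd h₂ e₂
  have ha : 0 < P + d := by linarith
  have hb : 0 < Q + d := by linarith
  set n := w₁ / (P + d)
  set m := w₂ / (Q + d)
  have hD2 : 2 * D = J n - J m := mul_left_cancel₀ hd.ne' (by rw [mul_sub, j1, j2, ← hD]; ring)
  have w1 : w₁ = (P + d) * n := by simp only [n]; field_simp
  have w2 : w₂ = (Q + d) * m := by simp only [m]; field_simp
  have hnm : |n - m| ≤ |w₁ - w₂| := by
    rcases (add_nonneg m1.1 m2.1).eq_or_lt with h0 | h0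
    · have a1 : n = 0 := by linarith [m1.1, m2.1]
      have a2 : m = 0 := by linarith [m1.1, m2.1]
      simp [a1, a2]
    · have n2 : (P + d) * n ^ 2 = P := mul_left_cancel₀ ha.ne' (by rw [mul_comm _ P, ← e₁, w1]; ring)
      have m2' : (Q + d) * m ^ 2 = Q :=
        mul_left_cancel₀ hb.ne' (by rw [mul_comm _ Q, ← e₂, w2]; ring)
      have k1 : (P + d) * (Q + d) * (n + m) * (n - m) = d * (w₁ + w₂) * (w₁ - w₂) := by
        have : (w₁ + w₂) * (w₁ - w₂) = P - Q := by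
          linear_combination e₁ - e₂ + (P - Q) * hs
        linear_combination (Q + d) * n2 - (P + d) * m2' - d * this
      have k2 : d * (w₁ + w₂) ≤ (P + d) * (Q + d) * (n + m) := by
        rw [w1, w2]
        nlinarith [mul_nonneg (mul_nonneg ha.le hQ) m1.1, mul_nonneg (mul_nonneg hb.le hP) m2.1]
      have k3 : 0 < (P + d) * (Q + d) * (n + m) := by positivity
      have k4 := congrArg abs k1
      rw [abs_mul, abs_mul (d * (w₁ + w₂)), abs_of_pos k3,
        abs_of_nonneg (mul_nonneg hd.le (add_nonneg h₁ h₂))] at k4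
      refine le_of_mul_le_mul_left ?_ k3
      rw [k4]
      exact mul_le_mul_of_nonneg_right k2 (abs_nonneg _)
  have hl := (J_lip m2 m1).trans (mul_le_mul_of_nonneg_left hnm (by norm_num))
  rw [← hD2, abs_mul, abs_two] at hl
  have hw : |w₁ - w₂| ≤ 1 := by
    have a1 : w₁ ≤ 1 := by nlinarith
    have a2 : w₂ ≤ 1 := by nlinarith
    rw [abs_le]; constructor <;> linarith
  have s1 : D ^ 2 ≤ 25 / 64 * (w₁ - w₂) ^ 2 := by
    rw [← sq_abs D, ← sq_abs (w₁ - w₂)]
    nlinarith [abs_nonneg D, abs_nonneg (w₁ - w₂)]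
  have s2 : (w₁ - w₂) ^ 2 ≤ 1 := by
    rw [← sq_abs]; nlinarith [abs_nonneg (w₁ - w₂)]
  have c1 := cosh_le_exp_half_sq D
  have c2 := abs_exp_sub_one_sub_id_le (x := D ^ 2 / 2) (by
    rw [abs_of_nonneg (by positivity)]; linarith)
  have c3 := (abs_le.1 c2).2
  rw [cosh_eq] at c1
  nlinarith [sq_nonneg D, sq_nonneg (w₁ - w₂)]

lemma gibbs {θ θ' u u' : ℝ} (h0 : 0 ≤ θ) (h0' : 0 ≤ θ') (hs : θ + θ' = 1) (hu : 0 ≤ u)
    (hu' : 0 ≤ u') (hsu : u + u' = 1) (p : θ ≠ 0 → u ≠ 0) (p' : θ' ≠ 0 → u' ≠ 0) :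
    θ * log u + θ' * log u' ≤ θ * log θ + θ' * log θ' := by
  have key : ∀ t x : ℝ, 0 ≤ t → 0 ≤ x → (t ≠ 0 → x ≠ 0) → t * log x - t * log t ≤ x - t := by
    intro t x ht hx h
    rcases ht.eq_or_lt with rfl | ht
    · simpa using hx
    · have hx' : 0 < x := hx.lt_of_ne' (h ht.ne')
      have := mul_le_mul_of_nonneg_left (log_le_sub_one_of_pos (div_pos hx' ht)) ht.le
      rw [log_div hx'.ne' ht.ne', mul_sub, mul_sub, mul_div_cancel₀ _ ht.ne'] at this
      linarith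
  linarith [key θ u h0 hu p, key θ' u' h0' hu' p']

end Pool.Agent.P.MP_c5b4b2_an.H
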